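import Pool.Agent.Lib.MP_b2e238_gt.B.Defs
import Pool.Agent.Lib.MP_b2e238_gt.K.Dif

/-! The monomial maps `Jm` are diffeomorphisms of the complements of the singular torus. -/

open scoped ContDiff Topology
open Set Metric

noncomputable section

namespace Pool.Agent.Lib.MP_b2e238_gt

theorem ph_norm {z : ℂ} (hz : z ≠ 0) : ‖ph z‖ = 1 := by
  have : ‖z‖ ≠ 0 := norm_ne_zero_iff.2 hz
  simp [ph, this]

theorem ph_ne {z : ℂ} (hz : z ≠ 0) : ph z ≠ 0 := by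
  rw [← norm_ne_zero_iff, ph_norm hz]; exact one_ne_zero

theorem ph_mul_norm {z : ℂ} (hz : z ≠ 0) : (‖z‖ : ℂ) * ph z = z := by
  have : (‖z‖ : ℂ) ≠ 0 := by exact_mod_cast norm_ne_zero_iff.2 hz
  simp only [ph]; field_simp

theorem ph_pos_mul {r : ℝ} (hr : 0 < r) {u : ℂ} (hu : ‖u‖ = 1) : ph ((r : ℂ) * u) = u := by
  have : (r : ℂ) ≠ 0 := by exact_mod_cast hr.ne'
  simp only [ph, norm_mul, Complex.norm_real, Real.norm_eq_abs, abs_of_pos hr, hu, mul_one]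
  field_simp

theorem norm_mon {u T : ℂ} (hu : ‖u‖ = 1) (hT : ‖T‖ = 1) (i j : ℤ) : ‖u ^ i * T ^ j‖ = 1 := by
  simp [norm_zpow, hu, hT]

theorem mon_mon {u T : ℂ} (hu : u ≠ 0) (hT : T ≠ 0) (a b c d i j : ℤ) :
    (u ^ a * T ^ b) ^ i * (u ^ c * T ^ d) ^ j = u ^ (a * i + c * j) * T ^ (b * i + d * j) := by
  rw [mul_zpow, mul_zpow, ← zpow_mul, ← zpow_mul, ← zpow_mul, ← zpow_mul, zpow_add₀ hu,
    zpow_add₀ hT]
  ring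

theorem Jm_comp (κ κ' : ℝ) (i₁ i₂ e₁ e₂ k l i₁' i₂' e₁' e₂' k' l' : ℤ) {a : C3 × ℂ}
    (hz : a.1.2.2 ≠ 0) (hT : ‖a.2‖ = 1) :
    Jm κ' i₁' i₂' e₁' e₂' k' l' (Jm κ i₁ i₂ e₁ e₂ k l a) =
      Jm (κ * κ') (i₁ + (e₁ * i₁' + k * i₂')) (i₂ + (e₂ * i₁' + l * i₂')) (e₁ * e₁' + k * e₂')
        (e₂ * e₁' + l * e₂') (e₁ * k' + k * l') (e₂ * k' + l * l') a := by
  obtain ⟨⟨x, y, z⟩, T⟩ := a
  have hu := ph_norm hz
  have hu0 := ph_ne hz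
  have hT0 : T ≠ 0 := by rw [← norm_ne_zero_iff, hT]; exact one_ne_zero
  have hr : 0 < ‖z‖ ^ κ := Real.rpow_pos_of_pos (norm_pos_iff.2 hz) κ
  have h1 := ph_pos_mul hr (norm_mon hu hT e₁ e₂)
  have h2 : ‖((‖z‖ ^ κ : ℝ) : ℂ) * (ph z ^ e₁ * T ^ e₂)‖ = ‖z‖ ^ κ := by
    rw [norm_mul, norm_mon hu hT, mul_one, Complex.norm_real, Real.norm_eq_abs, abs_of_pos hr]
  simp only [Jm] at h1 h2 ⊢
  rw [h1, h2, mon_mon hu0 hT0, mon_mon hu0 hT0, mon_mon hu0 hT0, ← Real.rpow_mul (norm_nonneg _)]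
  have h3 : ph z ^ (i₁ + (e₁ * i₁' + k * i₂')) * T ^ (i₂ + (e₂ * i₁' + l * i₂')) =
      (ph z ^ (e₁ * i₁' + k * i₂') * T ^ (e₂ * i₁' + l * i₂')) * (ph z ^ i₁ * T ^ i₂) := by
    rw [zpow_add₀ hu0 i₁, zpow_add₀ hT0 i₂]; ring
  rw [h3]
  refine Prod.ext (Prod.ext ?_ (Prod.ext ?_ rfl)) rfl <;> simp only [mul_pow] <;> ring

theorem Jm_one {a : C3 × ℂ} (hz : a.1.2.2 ≠ 0) : Jm 1 0 0 1 0 0 1 a = a := by
  obtain ⟨⟨x, y, z⟩, T⟩ := a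
  simp [Jm, ph_mul_norm hz]

theorem ph_smooth : ContDiffOn ℝ ∞ ph {z | z ≠ 0} := by
  intro z hz
  have h : ContDiffAt ℝ ∞ (fun w : ℂ => ((‖w‖ : ℝ) : ℂ)) z :=
    Complex.ofRealCLM.contDiff.contDiffAt.comp z (contDiffAt_norm ℝ hz)
  have h0 : ((‖z‖ : ℝ) : ℂ) ≠ 0 := by exact_mod_cast norm_ne_zero_iff.2 hz
  exact (contDiffAt_id.mul (h.inv h0)).contDiffWithinAt.congr
    (fun w _ => by simp [ph, div_eq_mul_inv]) (by simp [ph, div_eq_mul_inv])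

theorem zpow_at {P : Type} [NormedAddCommGroup P] [NormedSpace ℝ P] {f : P → ℂ} {p : P}
    (hf : ContDiffAt ℝ ∞ f p) (h0 : f p ≠ 0) (m : ℤ) : ContDiffAt ℝ ∞ (fun q => f q ^ m) p := by
  rcases Int.eq_nat_or_neg m with ⟨k, rfl | rfl⟩
  · simpa using hf.pow k
  · simp only [zpow_neg, zpow_natCast]
    exact (hf.pow k).inv (pow_ne_zero k h0)

theorem ph_at {P : Type} [NormedAddCommGroup P] [NormedSpace ℝ P] {f : P → ℂ} {p : P}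
    (hf : ContDiffAt ℝ ∞ f p) (h0 : f p ≠ 0) : ContDiffAt ℝ ∞ (fun q => ph (f q)) p :=
  (ph_smooth.contDiffAt (isOpen_ne.mem_nhds h0)).comp p hf

theorem npow_at {P : Type} [NormedAddCommGroup P] [NormedSpace ℝ P] {f : P → ℂ} {p : P}
    (hf : ContDiffAt ℝ ∞ f p) (h0 : f p ≠ 0) (κ : ℝ) :
    ContDiffAt ℝ ∞ (fun q => ((‖f q‖ ^ κ : ℝ) : ℂ)) p :=
  Complex.ofRealCLM.contDiff.contDiffAt.comp p
    (((contDiffAt_norm ℝ h0).comp p hf).rpow_const_of_ne (norm_ne_zero_iff.2 h0))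

theorem Jm_at (κ : ℝ) (i₁ i₂ e₁ e₂ k l : ℤ) {a : C3 × ℂ} (hz : a.1.2.2 ≠ 0) (hT : a.2 ≠ 0) :
    ContDiffAt ℝ ∞ (Jm κ i₁ i₂ e₁ e₂ k l) a := by
  have hz' : ContDiffAt ℝ ∞ (fun b : C3 × ℂ => b.1.2.2) a := by fun_prop
  have hu := ph_at hz' hz
  have hT' : ContDiffAt ℝ ∞ (fun b : C3 × ℂ => b.2) a := by fun_prop
  have m : ∀ i j : ℤ, ContDiffAt ℝ ∞ (fun b : C3 × ℂ => ph b.1.2.2 ^ i * b.2 ^ j) a :=
    fun i j => (zpow_at hu (ph_ne hz) i).mul (zpow_at hT' hT j)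
  refine ContDiffAt.prodMk (ContDiffAt.prodMk (((m _ _).pow 3).mul (by fun_prop))
    (ContDiffAt.prodMk (((m _ _).pow 2).mul (by fun_prop)) ((npow_at hz' hz κ).mul (m _ _))))
    (m _ _)

theorem mem_S1 {T : ℂ} : T ∈ S1 ↔ ‖T‖ = 1 := mem_sphere_zero_iff_norm

theorem S1_ne {T : ℂ} (h : T ∈ S1) : T ≠ 0 := by
  rw [← norm_ne_zero_iff, mem_S1.1 h]; exact one_ne_zero

theorem Jm_maps {n n' : ℕ} {κ : ℝ} {i₁ i₂ e₁ e₂ : ℤ} (k l : ℤ) (h1 : κ * n' = n)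
    (h2 : 6 * i₁ + n = n' * e₁) (h3 : 6 * i₂ = n' * e₂) :
    MapsTo (Jm κ i₁ i₂ e₁ e₂ k l) (YO n) (YO n') := by
  rintro ⟨⟨x, y, z⟩, T⟩ ⟨⟨e, g⟩, hT, hz⟩
  have hT1 : ‖T‖ = 1 := mem_S1.1 hT
  have hT0 : T ≠ 0 := S1_ne hT
  simp only at e g hz
  have hu := ph_norm hz
  have hu0 := ph_ne hz
  have hr : 0 < ‖z‖ ^ κ := Real.rpow_pos_of_pos (norm_pos_iff.2 hz) κ
  refine ⟨⟨?_, ?_⟩, mem_S1.2 (norm_mon hu hT1 _ _), ?_⟩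
  · have a1 : ((‖z‖ ^ κ : ℝ) : ℂ) ^ n' = (‖z‖ : ℂ) ^ n := by
      rw [← Complex.ofReal_pow, ← Real.rpow_natCast, ← Real.rpow_mul (norm_nonneg _), h1,
        Real.rpow_natCast, Complex.ofReal_pow]
    have a2 : (ph z ^ e₁ * T ^ e₂) ^ n' = (ph z ^ i₁ * T ^ i₂) ^ 6 * ph z ^ n := by
      rw [← zpow_natCast, ← zpow_natCast, ← zpow_natCast, mul_zpow, mul_zpow, ← zpow_mul,
        ← zpow_mul, ← zpow_mul, ← zpow_mul, mul_comm e₁, mul_comm e₂, ← h2, ← h3, zpow_add₀ hu0]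
      push_cast; ring_nf
    have a3 : z ^ n = (‖z‖ : ℂ) ^ n * ph z ^ n := by rw [← mul_pow, ph_mul_norm hz]
    simp only [Jm]
    rw [mul_pow _ _ n', a1, a2]
    linear_combination (ph z ^ i₁ * T ^ i₂) ^ 6 * (e - a3)
  · simp only [Jm, norm_mul _ x, norm_mul _ y, norm_pow, norm_mon hu hT1, one_pow, one_mul, g]
  · simp only [Jm]
    exact mul_ne_zero (by exact_mod_cast hr.ne') (mul_ne_zero (zpow_ne_zero _ hu0)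
      (zpow_ne_zero _ hT0))

theorem Jm_on (n : ℕ) (κ : ℝ) (i₁ i₂ e₁ e₂ k l : ℤ) :
    ContDiffOn ℝ ∞ (Jm κ i₁ i₂ e₁ e₂ k l) (YO n) := fun _ h =>
  (Jm_at κ i₁ i₂ e₁ e₂ k l h.2.2 (S1_ne h.2.1)).contDiffWithinAt

/-- `d = ± 1` is the determinant of the exponent matrix. -/
theorem Jm_dif {n n' : ℕ} {κ : ℝ} {i₁ i₂ e₁ e₂ k l d : ℤ} (h0 : κ ≠ 0) (h1 : κ * n' = n)
    (h2 : 6 * i₁ + n = n' * e₁) (h3 : 6 * i₂ = n' * e₂) (h4 : e₁ * l - e₂ * k = d)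
    (h5 : d * d = 1) : Dif (YO n) (YO n') (Jm κ i₁ i₂ e₁ e₂ k l)
      (Jm κ⁻¹ (d * (k * i₂ - l * i₁)) (d * (e₂ * i₁ - e₁ * i₂)) (d * l) (-d * e₂) (-d * k)
        (d * e₁)) := by
  refine ⟨Jm_on _ _ _ _ _ _ _ _, Jm_on _ _ _ _ _ _ _ _, Jm_maps _ _ h1 h2 h3,
    Jm_maps _ _ (by rw [← h1]; field_simp) ?_ ?_, fun a h => ?_, fun a h => ?_⟩
  · linear_combination (-d * l) * h2 + (d * k) * h3 - (n' * d) * h4 - n' * h5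
  · linear_combination (d * e₂) * h2 - (d * e₁) * h3
  · rw [Jm_comp _ _ _ _ _ _ _ _ _ _ _ _ _ _ h.2.2 (mem_S1.1 h.2.1), mul_inv_cancel₀ h0]
    convert Jm_one h.2.2 using 2
    · linear_combination (-d * i₁) * h4 - i₁ * h5
    · linear_combination (-d * i₂) * h4 - i₂ * h5
    · linear_combination d * h4 + h5
    · ring
    · ring
    · linear_combination d * h4 + h5
  · rw [Jm_comp _ _ _ _ _ _ _ _ _ _ _ _ _ _ h.2.2 (mem_S1.1 h.2.1), inv_mul_cancel₀ h0]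
    convert Jm_one h.2.2 using 2
    · ring
    · ring
    · linear_combination d * h4 + h5
    · ring
    · ring
    · linear_combination d * h4 + h5

end Pool.Agent.Lib.MP_b2e238_gt
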