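import Pool.Agent.Lib.MP_b2e238_gt.B.Fill
import Pool.Agent.Lib.MP_b2e238_gt.C.Pi

/-! The three fillings of the trefoil exterior times a circle. -/

open scoped ContDiff Topology
open Set Metric

noncomputable section

namespace Pool.Agent.Lib.MP_b2e238_gt

section
variable {U V : Type} [NormedAddCommGroup U] [NormedSpace ℝ U] [NormedAddCommGroup V]
  [NormedSpace ℝ V]

theorem fillI_rot {a b q : ℂ} (ha : a ∈ S1) (hb : b ∈ S1) (hq : q ∈ S1) (r : ℝ) :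
    Dif (S1 ×ˢ S1 ×ˢ ball (0 : ℂ) r) (S1 ×ˢ S1 ×ˢ ball (0 : ℂ) r)
      (fun u => (a * u.1, b * u.2.1, q * u.2.2)) fun u => (a⁻¹ * u.1, b⁻¹ * u.2.1, q⁻¹ * u.2.2) := by
  have m : ∀ {a b q : ℂ}, ‖a‖ = 1 → ‖b‖ = 1 → ‖q‖ = 1 → MapsTo
      (fun u : C3 => (a * u.1, b * u.2.1, q * u.2.2)) (S1 ×ˢ S1 ×ˢ ball (0 : ℂ) r)
      (S1 ×ˢ S1 ×ˢ ball (0 : ℂ) r) := fun a b q u h =>
    ⟨mem_S1.2 (by rw [norm_mul, a, mem_S1.1 h.1, mul_one]),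
      mem_S1.2 (by rw [norm_mul, b, mem_S1.1 h.2.1, mul_one]),
      mem_ball_zero_iff.2 (by rw [norm_mul, q, one_mul]; exact mem_ball_zero_iff.1 h.2.2)⟩
  refine ⟨by fun_prop, by fun_prop, m (mem_S1.1 ha) (mem_S1.1 hb) (mem_S1.1 hq),
    m (by rw [norm_inv, mem_S1.1 ha, inv_one]) (by rw [norm_inv, mem_S1.1 hb, inv_one])
      (by rw [norm_inv, mem_S1.1 hq, inv_one]), fun u _ => ?_, fun u _ => ?_⟩ <;>
    simp [S1_ne ha, S1_ne hb, S1_ne hq]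

/-- Constant rotations of the angles and the cube of the radius. -/
theorem Fill.repar {E : Set U} {cl cl' : ℝ × C3 → U} {M O : Set V} {j : U → V} {m m' : ℤ}
    (h : Fill E cl M O j m m') {a₀ b₀ q₀ : ℂ} (ha : a₀ ∈ S1) (hb : b₀ ∈ S1) (hq : q₀ ∈ S1)
    {δ : ℝ} (hδ : 0 < δ) (e : ∀ ρ ∈ Ioo 0 δ, ∀ a ∈ S1, ∀ b ∈ S1, ∀ q ∈ S1,
      cl' (ρ, a, b, q) = cl (ρ ^ 3, a₀ * a, b₀ * b, q₀ * q)) : Fill E cl' M O j m m' := by
  obtain ⟨h1, h2, c, ε, κ, hε, hκ, hc, h0, hj⟩ := h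
  have s1 : ∀ {a b : ℂ} (k : ℤ), a ∈ S1 → b ∈ S1 → a * b ^ k ∈ S1 := fun k a b =>
    mem_S1.2 (by simpa using norm_mon (mem_S1.1 a) (mem_S1.1 b) 1 k)
  have s2 : ∀ {a b : ℂ}, a ∈ S1 → b ∈ S1 → a * b ∈ S1 := fun a b => by simpa using s1 1 a b
  set η := min δ (min 1 ε) with hη
  have p : 0 < η := lt_min hδ (lt_min one_pos hε)
  have p3 : η ^ 3 ≤ ε := (pow_le_of_le_one p.le ((min_le_right _ _).trans (min_le_left _ _))
    three_ne_zero).trans ((min_le_right _ _).trans (min_le_right _ _))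
  have r3 : ∀ x : ℝ, 0 ≤ x → x ^ (3 * κ) = (x ^ 3) ^ κ := fun x hx => by
    rw [Real.rpow_mul hx]; norm_cast
  have D := fillI_rot (s1 (-m) ha hq) (s1 (-m') hb hq) hq
  refine ⟨h1, h2, c ∘ fun u => (a₀ * q₀ ^ (-m) * u.1, b₀ * q₀ ^ (-m') * u.2.1, q₀ * u.2.2), η,
    3 * κ, p, by positivity, ?_, ?_, fun a a1 b b1 q q1 ρ hρ => ?_⟩
  · refine (((D _).emb (Opn.refl _)).comp (hc.mono ?_))
    refine opn_iff.2 ⟨univ ×ˢ univ ×ˢ ball 0 (η ^ (3 * κ)),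
      isOpen_univ.prod (isOpen_univ.prod isOpen_ball), ?_⟩
    have : η ^ (3 * κ) ≤ ε ^ κ := by
      rw [r3 _ p.le]; exact Real.rpow_le_rpow (by positivity) p3 hκ.le
    ext u
    exact ⟨fun h => ⟨⟨h.1, h.2.1, ball_subset_ball this h.2.2⟩, trivial, trivial, h.2.2⟩,
      fun h => ⟨h.1.1, h.1.2.1, h.2.2.2⟩⟩
  · rw [← h0, image_comp]
    congr 1
    refine Subset.antisymm ?_ fun u hu => ?_
    · rintro _ ⟨u, hu, rfl⟩
      exact ⟨s2 (s1 _ ha hq) hu.1, s2 (s1 _ hb hq) hu.2.1, by simp [show u.2.2 = 0 from hu.2.2]⟩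
    · have m1 := (D 1).mG (x := u) ⟨hu.1, hu.2.1, by simp [show u.2.2 = 0 from hu.2.2]⟩
      exact ⟨_, ⟨m1.1, m1.2.1, by simp [show u.2.2 = 0 from hu.2.2]⟩,
        (D 1).fg u ⟨hu.1, hu.2.1, by simp [show u.2.2 = 0 from hu.2.2]⟩⟩
  · have q0 := S1_ne hq
    have ρ3 : ρ ^ 3 ∈ Ioo 0 ε :=
      ⟨pow_pos hρ.1 3, (pow_lt_pow_left₀ hρ.2 hρ.1.le three_ne_zero).trans_le p3⟩
    have k := hj _ (s2 (s1 (-m) ha hq) a1) _ (s2 (s1 (-m') hb hq) b1) _ (s2 hq q1) _ ρ3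
    rw [e ρ ⟨hρ.1, hρ.2.trans_le (min_le_left _ _)⟩ _ (s1 m a1 q1) _ (s1 m' b1 q1) q q1,
      r3 _ hρ.1.le]
    simp only [Function.comp]
    rw [mul_left_comm q₀, ← k]
    congr 4 <;> simp only [mul_zpow, zpow_neg] <;> field_simp

end

theorem cut_one {a b x : ℝ} (h : a < b) (k : b ≤ x) : cut a b x = 1 :=
  Real.smoothTransition.one_of_one_le ((one_le_div (sub_pos.2 h)).2 (by linarith))

/-- Near the end the coordinates `PiE` are monomial in the chart `cO 1`. -/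
theorem pi_right (i : ℕ) {η c : ℂ} (T : ℂ) (hη : 3 ≤ ‖η‖) (hc : c ∈ S1) :
    PiE i (η, c, T) = (cO 1 (-c, -c ^ 6 / η), T * ph η ^ (3 - i : ℤ)) := by
  have η0 : η ≠ 0 := norm_pos_iff.1 (by linarith)
  have c0 := S1_ne hc
  have h9 : 9 ≤ ‖η‖ ^ 2 := by nlinarith
  have l : lam η = η := by
    rw [lam, cut_one (by norm_num : (4 : ℝ) < 9) h9,
      cut_one (by norm_num : (1 / 9 : ℝ) < 1 / 4) (by linarith : 1 / 4 ≤ ‖η‖ ^ 2)]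
    simp
  have η1 : 1 + η ≠ 0 := fun e => by
    rw [show η = -1 by linear_combination e] at hη; norm_num at hη
  obtain ⟨s, hs⟩ : ∃ s, s = sq (1 + 1 / η) := ⟨_, rfl⟩
  have s2 : s ^ 2 = (1 + η) / η := by rw [hs, sq_sq]; field_simp; ring
  have s0 : s ≠ 0 := fun e => by
    rw [e] at s2; exact div_ne_zero η1 η0 (by simpa using s2.symm)
  have n0 : (‖s‖ : ℂ) ≠ 0 := by exact_mod_cast norm_ne_zero_iff.2 s0
  have g : gA η = s / (‖s‖ : ℝ) := by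
    simp only [gA, l, cut_one (by norm_num : (4 : ℝ) < 9) h9, Complex.ofReal_one, ← hs]
    rw [mul_div_cancel_left₀ _ (ph_ne η0)]; rfl
  have e1 : 1 + η = s ^ 2 * η := by rw [s2]; field_simp
  have ex : ∀ k : ℕ, Real.exp (k * -Real.log ‖s‖) = (‖s‖ ^ k)⁻¹ := fun k => by
    rw [Real.exp_nat_mul, Real.exp_neg, Real.exp_log (norm_pos_iff.2 s0), inv_pow]
  refine Prod.ext ?_ ?_
  · have r : ‖((-c) ^ 3 * s, -(-c) ^ 2, -c ^ 6 / η).1‖ ^ 4 +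
        ‖((-c) ^ 3 * s, -(-c) ^ 2, -c ^ 6 / η).2.1‖ ^ 6 ≠ 0 := by
      simp only [norm_neg, norm_pow, mem_S1.1 hc]; positivity
    have q : 1 - (-c ^ 6 / η) ^ 1 / (-c) ^ 6 = 1 + 1 / η := by field_simp; ring
    simp only [PiE, sec, cO, q, ← hs]
    rw [← toY_scl 1 (-Real.log ‖s‖) r, g, e1]
    congr 1
    have a3 := ex 3
    have a2 := ex 2
    have a6 := ex 6
    push_cast at a3 a2 a6
    simp only [scl, Nat.cast_one, div_one, a3, a2, a6, Complex.real_smul]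
    push_cast
    refine Prod.ext ?_ (Prod.ext ?_ ?_) <;> simp only <;> field_simp
  · simp only [PiE, gB, l]
    rw [show (3 - i : ℤ) = 4 - i - 1 by ring, zpow_sub_one₀ (ph_ne η0), div_eq_mul_inv]

theorem cl_eq {i : ℕ} (hi : i = 1 ∨ i = 2) {ρ : ℝ} (hρ : ρ ∈ Ioo (0 : ℝ) (1 / 2)) {a b q : ℂ}
    (ha : a ∈ S1) (hb : b ∈ S1) (hq : q ∈ S1) : cl i (ρ, a, b, q) =
      clM (-1, 0, 0) (3 * i - 6, i, -1) (-3, -1, 3 - i) (ρ ^ 3, -1 * a, (-1) ^ i * b, -1 * q) := by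
  have a0 := S1_ne ha
  have b0 := S1_ne hb
  have q0 := S1_ne hq
  have p : 0 < (ρ ^ 3)⁻¹ := inv_pos.2 (pow_pos hρ.1 3)
  have ρ0 : (ρ : ℂ) ≠ 0 := by exact_mod_cast hρ.1.ne'
  have n1 : ‖q / (a ^ 3 * b) ^ i‖ = 1 := by simp [mem_S1.1 ha, mem_S1.1 hb, mem_S1.1 hq]
  have n3 : 3 ≤ ‖(((ρ ^ 3)⁻¹ : ℝ) : ℂ) * (q / (a ^ 3 * b) ^ i)‖ := by
    rw [norm_mul, n1, mul_one, Complex.norm_real, Real.norm_eq_abs, abs_of_pos p,
      le_inv_comm₀ (by norm_num) (pow_pos hρ.1 3)]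
    nlinarith [pow_lt_pow_left₀ hρ.2 hρ.1.le three_ne_zero]
  simp only [cl, clM]
  rw [pi_right i _ n3 (mem_S1.2 (by rw [norm_inv, mem_S1.1 ha, inv_one])), ph_pos_mul p n1]
  rcases hi with rfl | rfl <;> simp only [mon] <;>
    refine Prod.ext (congrArg (cO 1) (Prod.ext ?_ ?_)) ?_ <;> norm_num [zpow_ofNat] <;> field_simp

theorem jS_ok (s : ℤ) : (jS s).OK := by
  have h : 6 * s + 1 ≠ 0 := by omega
  refine ⟨Int.natAbs_ne_zero.2 h, ?_, by simp [jS], ?_⟩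
  · simp only [jS]
    rw [mul_comm ((6 * s + 1).natAbs : ℤ), Int.sign_mul_natAbs]
  · simp only [jS, mul_one, zero_mul, sub_zero]
    rcases lt_or_gt_of_ne h with k | k
    exacts [Or.inr (Int.sign_eq_neg_one_of_neg k), Or.inl (Int.sign_eq_one_of_pos k)]

theorem jA_ok : jA.OK := by simp [JD.OK, jA]

theorem JD.j_eq (d : JD) : d.j = jM d.n d.i₁ d.i₂ d.e₁ d.e₂ d.k d.l := by
  funext a
  simp only [JD.j, jM, one_div]; rfl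

theorem JD.OK.sq {d : JD} (h : d.OK) :
    (d.e₁ * d.l - d.e₂ * d.k) * (d.e₁ * d.l - d.e₂ * d.k) = 1 := by
  rcases h.2.2.2 with k | k <;> rw [k] <;> norm_num

theorem j_dif {d : JD} (h : d.OK) : ∃ j', Dif (YO 1) (MM d.n \ OO d.n) d.j j' :=
  d.j_eq ▸ jM_dif h.1 h.2.1 h.2.2.1 rfl h.sq

theorem fillI_gen {i : ℕ} (hi : i = 1 ∨ i = 2) {d : JD} {m m' : ℤ}
    (h : Fill (YO 1) (clM (-1, 0, 0) (3 * i - 6, i, -1) (-3, -1, 3 - i)) (MM d.n) (OO d.n)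
      (jM d.n d.i₁ d.i₂ d.e₁ d.e₂ d.k d.l) m m') :
    Fill (YO 1) (cl i) (MM d.n) (OO d.n) d.j m m' :=
  d.j_eq ▸ h.repar (mem_S1.2 (by simp)) (mem_S1.2 (by simp)) (mem_S1.2 (by simp))
    (by norm_num : (0 : ℝ) < 1 / 2) fun _ hρ _ ha _ hb _ hq => cl_eq hi hρ ha hb hq

theorem fill_two (s : ℤ) : Fill (YO 1) (cl 2) (MM (jS s).n) (OO (jS s).n) (jS s).j s 1 := by
  have h := jS_ok s
  have k : (6 * s + 1).sign * (6 * s + 1).sign = 1 := by simpa [jS] using h.sq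
  refine fillI_gen (Or.inr rfl) (fill_jM h.1 h.2.1 h.2.2.1 rfl h.sq rfl rfl rfl ?_ rfl ?_ ?_
    (d' := 1) ?_ rfl) <;> simp [jS]
  · ring
  · ring
  · linear_combination k
  · ring

theorem fill_one : Fill (YO 1) (cl 1) (MM (jS 0).n) (OO (jS 0).n) (jS 0).j 0 2 := by
  have h := jS_ok 0
  refine fillI_gen (Or.inl rfl) (fill_jM h.1 h.2.1 h.2.2.1 rfl h.sq rfl rfl rfl ?_ rfl ?_ ?_
    (d' := 1) ?_ rfl) <;> simp [jS]

theorem fill_aut : Fill (YO 1) (cl 1) (MM jA.n) (OO jA.n) jA.j (-2) 2 := by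
  have h := jA_ok
  refine fillI_gen (Or.inl rfl) (fill_jM h.1 h.2.1 h.2.2.1 rfl h.sq rfl rfl rfl ?_ rfl ?_ ?_
    (d' := 1) ?_ rfl) <;> simp [jA]

end Pool.Agent.Lib.MP_b2e238_gt
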