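import Pool.Agent.Lib.MP_b2e238_gt.B.J

/-! The chart at the orbit `z = 0`. -/

open scoped ContDiff Topology
open Set Metric

noncomputable section

namespace Pool.Agent.Lib.MP_b2e238_gt

variable {n n' : ℕ} {a v : C3}

theorem sq_sq (z : ℂ) : sq z ^ 2 = z := Complex.cpow_ofNat_inv_pow z 2

theorem sq_at {P : Type} [NormedAddCommGroup P] [NormedSpace ℝ P] {f : P → ℂ} {p : P}
    (hf : ContDiffAt ℝ ∞ f p) (h : 0 < (f p).re) : ContDiffAt ℝ ∞ (fun q => sq (f q)) p := by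
  have k : AnalyticAt ℂ (fun z : ℂ => z ^ (2⁻¹ : ℂ)) (f p) :=
    analyticAt_id.cpow analyticAt_const (Or.inl h)
  exact (k.contDiffAt.restrict_scalars ℝ).comp p hf

theorem co_sq_ne {z : ℂ} (h : z ≠ 0) : sq z ≠ 0 := fun e => h (by rw [← sq_sq z, e]; simp)

theorem co_re {q : ℂ} (h : ‖q‖ < 1 / 2) : 0 < (1 + q).re := by
  have := (abs_le.1 (Complex.abs_re_le_norm q)).1
  simp only [Complex.add_re, Complex.one_re]
  linarith

theorem co_ne {q : ℂ} (h : ‖q‖ < 1 / 2) : 1 + q ≠ 0 := fun e => by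
  have := co_re h
  rw [e] at this
  simp at this

theorem co_small {u : ℂ × ℂ} (h : u.1 ∈ S1) (k : ‖u.2‖ ^ n < 1 / 2) :
    ‖-(u.2 ^ n / u.1 ^ 6)‖ < 1 / 2 := by
  simpa [mem_S1.1 h] using k

theorem co_rho {m : ℂ} (h : m ∈ S1) (x w : ℂ) :
    ‖((x, -m ^ 2, w) : C3).1‖ ^ 4 + ‖((x, -m ^ 2, w) : C3).2.1‖ ^ 6 ≠ 0 := by
  simp only [norm_neg, norm_pow, mem_S1.1 h]
  positivity

theorem co_exp (hn : n ≠ 0) (s : ℝ) : Real.exp (6 / n * s) ^ n = Real.exp (2 * s) ^ 3 := by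
  rw [← Real.exp_nat_mul, ← Real.exp_nat_mul]
  congr 1
  field_simp
  push_cast
  ring

theorem cO_at (hn : n ≠ 0) {u : ℂ × ℂ} (h : u.1 ∈ S1) (k : ‖u.2‖ ^ n < 1 / 2) :
    ContDiffAt ℝ ∞ (cO n) u := by
  have _ := hn
  have o : IsOpen {a : C3 | ‖a.1‖ ^ 4 + ‖a.2.1‖ ^ 6 ≠ 0} := isOpen_ne_fun (by fun_prop) (by fun_prop)
  have h6 : u.1 ^ 6 ≠ 0 := pow_ne_zero _ (S1_ne h)
  have k1 : ContDiffAt ℝ ∞ (fun u : ℂ × ℂ => 1 - u.2 ^ n / u.1 ^ 6) u := by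
    simp only [div_eq_mul_inv]
    exact contDiffAt_const.sub ((contDiffAt_snd.pow n).mul ((contDiffAt_fst.pow 6).inv h6))
  have k2 := sq_at k1 (by rw [sub_eq_add_neg]; exact co_re (co_small h k))
  exact ((toY_contDiffOn n).contDiffAt (o.mem_nhds (co_rho h _ _))).comp u
    (((contDiffAt_fst.pow 3).mul k2).prodMk ((contDiffAt_fst.pow 2).neg.prodMk contDiffAt_snd))

theorem cO_opn (n : ℕ) : Opn {a | a ∈ Yn n ∧ ‖a.2.2‖ ^ n < ‖a.2.1‖ ^ 3 / 2} (Yn n) :=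
  ⟨fun _ h => h.1, fun _ h => inter_mem_nhdsWithin (Yn n)
    ((isOpen_lt (f := fun a : C3 => ‖a.2.2‖ ^ n) (g := fun a : C3 => ‖a.2.1‖ ^ 3 / 2)
      (by fun_prop) (by fun_prop)).mem_nhds h.2)⟩

/-- `cO` is a positive weighted multiple of the raw point. -/
theorem cO_eq (n : ℕ) (u : ℂ × ℂ) : ∃ s : ℝ,
    cO n u = scl n s (u.1 ^ 3 * sq (1 - u.2 ^ n / u.1 ^ 6), -u.1 ^ 2, u.2) := ⟨_, rfl⟩

theorem cO_z (n : ℕ) (u : ℂ × ℂ) : (cO n u).2.2 = 0 ↔ u.2 = 0 := by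
  obtain ⟨s, e⟩ := cO_eq n u
  simp [e, scl]

theorem co_ph {r : ℝ} (hr : 0 < r) (w : ℂ) : ph (r • w) = ph w := by
  have : (r : ℂ) ≠ 0 := by exact_mod_cast hr.ne'
  simp only [ph, Complex.real_smul, norm_mul, Complex.norm_real, Real.norm_eq_abs, abs_of_pos hr,
    Complex.ofReal_mul]
  exact mul_div_mul_left _ _ this

theorem cO_ph (n : ℕ) (u : ℂ × ℂ) : ph (cO n u).2.2 = ph u.2 := by
  obtain ⟨s, e⟩ := cO_eq n u
  rw [e]
  exact co_ph (Real.exp_pos _) _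

theorem co_pw (hn : n ≠ 0) (s : ℝ) (a : C3) :
    (scl n s a).2.1 ^ 3 = (Real.exp (2 * s) ^ 3 : ℝ) * a.2.1 ^ 3 ∧
      (scl n s a).2.2 ^ n = (Real.exp (2 * s) ^ 3 : ℝ) * a.2.2 ^ n := by
  refine ⟨?_, ?_⟩
  · simp only [scl, Complex.real_smul, mul_pow, Complex.ofReal_pow]
  · simp only [scl, Complex.real_smul, mul_pow, ← Complex.ofReal_pow, co_exp hn]

theorem co_e3 (s : ℝ) : ((Real.exp (2 * s) ^ 3 : ℝ) : ℂ) ≠ 0 := by
  exact_mod_cast (pow_pos (Real.exp_pos _) 3).ne'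

theorem cO_eta (hn : n ≠ 0) (u : ℂ × ℂ) :
    (cO n u).2.1 ^ 3 / (cO n u).2.2 ^ n = -u.1 ^ 6 / u.2 ^ n := by
  obtain ⟨s, e⟩ := cO_eq n u
  rw [e, (co_pw hn s _).1, (co_pw hn s _).2, mul_div_mul_left _ _ (co_e3 s)]
  ring

theorem cO_hY (hn : n ≠ 0) {τ : ℂ} (h : ‖τ‖ = 1) (u : ℂ × ℂ) :
    hY n τ (cO n u) = cO n (τ ^ n * u.1, τ ^ 6 * u.2) := by
  have _ := hn
  have h0 : τ ≠ 0 := S1_ne (mem_S1.2 h)
  have e : (τ ^ 6 * u.2) ^ n / (τ ^ n * u.1) ^ 6 = u.2 ^ n / u.1 ^ 6 := by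
    rw [mul_pow, mul_pow, ← pow_mul, ← pow_mul, mul_comm n, mul_div_mul_left _ _ (pow_ne_zero _ h0)]
  have k := toY_mul n (u := (τ ^ (3 * n), τ ^ (2 * n), τ ^ 6)) (by simp [h]) (by simp [h])
    (u.1 ^ 3 * sq (1 - u.2 ^ n / u.1 ^ 6), -u.1 ^ 2, u.2)
  refine k.symm.trans (congrArg (toY n) ?_)
  simp only [e, Prod.mk_mul_mk]
  refine Prod.ext ?_ (Prod.ext ?_ rfl) <;> simp only <;> ring

theorem co_y (h : ‖a.2.2‖ ^ n < ‖a.2.1‖ ^ 3 / 2) :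
    a.2.1 ≠ 0 ∧ ‖a.2.2 ^ n / a.2.1 ^ 3‖ < 1 / 2 := by
  have p : 0 < ‖a.2.1‖ ^ 3 := by
    have : 0 ≤ ‖a.2.2‖ ^ n := by positivity
    linarith
  refine ⟨fun e => by simp [e] at p, ?_⟩
  rw [norm_div, norm_pow, norm_pow, div_lt_iff₀ p]
  linarith

theorem co_mO (e : a.1 ^ 2 + a.2.1 ^ 3 + a.2.2 ^ n = 0) (h : ‖a.2.2‖ ^ n < ‖a.2.1‖ ^ 3 / 2) :
    mO n a ^ 2 = -a.2.1 ∧ mO n a ^ 3 * sq (1 + a.2.2 ^ n / a.2.1 ^ 3) = a.1 ∧ mO n a ≠ 0 := by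
  obtain ⟨hy, hq⟩ := co_y h
  have h1 := co_ne hq
  have h2 := co_sq_ne h1
  have k : mO n a ^ 2 = -a.2.1 := by
    rw [mO, div_pow, mul_pow, sq_sq, div_eq_iff (mul_ne_zero (pow_ne_zero _ hy) h1)]
    field_simp
    linear_combination e
  refine ⟨k, ?_, fun z => hy (by rw [z] at k; simpa using k.symm)⟩
  rw [pow_succ, k, mO]
  generalize sq (1 + a.2.2 ^ n / a.2.1 ^ 3) = σ at h2
  field_simp

theorem cO_dif (hn : n ≠ 0) : Dif {u : ℂ × ℂ | u.1 ∈ S1 ∧ ‖u.2‖ ^ n < 1 / 2}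
    {a | a ∈ Yn n ∧ ‖a.2.2‖ ^ n < ‖a.2.1‖ ^ 3 / 2} (cO n) (cO' n) := by
  have hn' : (n : ℝ) ≠ 0 := by exact_mod_cast hn
  refine ⟨fun u h => (cO_at hn h.1 h.2).contDiffWithinAt, fun a h => ?_, fun u h => ?_,
    fun a h => ?_, fun u h => ?_, fun a h => ?_⟩
  · obtain ⟨hy, hq⟩ := co_y h.2
    have hm := (co_mO h.1.1 h.2).2.2
    have k1 : ContDiffAt ℝ ∞ (fun a : C3 => 1 + a.2.2 ^ n / a.2.1 ^ 3) a := by
      simp only [div_eq_mul_inv]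
      exact contDiffAt_const.add ((contDiffAt_snd.snd.pow n).mul
        ((contDiffAt_snd.fst.pow 3).inv (pow_ne_zero _ hy)))
    have k2 : ContDiffAt ℝ ∞ (mO n) a := by
      have e : mO n = fun a : C3 => -a.1 * (a.2.1 * sq (1 + a.2.2 ^ n / a.2.1 ^ 3))⁻¹ :=
        funext fun a => div_eq_mul_inv _ _
      rw [e]
      exact contDiffAt_fst.neg.mul ((contDiffAt_snd.fst.mul (sq_at k1 (co_re hq))).inv
        (mul_ne_zero hy (co_sq_ne (co_ne hq))))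
    have p : ((‖mO n a‖ ^ (6 / n : ℝ) : ℝ) : ℂ) ≠ 0 := by
      exact_mod_cast (Real.rpow_pos_of_pos (norm_pos_iff.2 hm) _).ne'
    have k3 : ContDiffAt ℝ ∞ (cO' n) a := by
      unfold cO'
      simp only [div_eq_mul_inv (_ : ℂ)]
      exact (ph_at k2 hm).prodMk (contDiffAt_snd.snd.mul ((npow_at k2 hm _).inv p))
    exact k3.contDiffWithinAt
  · have h0 := S1_ne h.1
    refine ⟨⟨?_, toY_rho n (co_rho h.1 _ _)⟩, ?_⟩
    · have e : (u.1 ^ 3 * sq (1 - u.2 ^ n / u.1 ^ 6)) ^ 2 + (-u.1 ^ 2) ^ 3 + u.2 ^ n = 0 := by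
        rw [mul_pow, sq_sq]
        field_simp
        ring
      rw [cO, toY, scl_eq hn, e, smul_zero]
    · obtain ⟨s, e⟩ := cO_eq n u
      have p := pow_pos (Real.exp_pos (2 * s)) 3
      have k := mul_lt_mul_of_pos_left h.2 p
      rw [e, ← norm_pow, ← norm_pow, (co_pw hn s _).1, (co_pw hn s _).2]
      simp only [norm_mul, Complex.norm_real, Real.norm_eq_abs, norm_pow, norm_neg,
        mem_S1.1 h.1, Real.abs_exp]
      linarith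
  · obtain ⟨k, -, hm⟩ := co_mO h.1.1 h.2
    refine ⟨mem_S1.2 (ph_norm hm), ?_⟩
    have p := norm_pos_iff.2 hm
    have e : (‖mO n a‖ ^ (6 / n : ℝ)) ^ n = ‖a.2.1‖ ^ 3 := by
      rw [← Real.rpow_natCast, ← Real.rpow_mul p.le, div_mul_cancel₀ _ hn', ← norm_neg a.2.1, ← k,
        norm_pow, ← pow_mul, ← Real.rpow_natCast]
      norm_num
    have q := (co_y h.2).2
    rw [norm_div, norm_pow, norm_pow] at q
    simp only [cO', norm_div, Complex.norm_real, Real.norm_eq_abs, div_pow,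
      abs_of_pos (Real.rpow_pos_of_pos p _), e]
    exact q
  · obtain ⟨s, e⟩ := cO_eq n u
    have h0 := S1_ne h.1
    have h1 : sq (1 - u.2 ^ n / u.1 ^ 6) ≠ 0 :=
      co_sq_ne (by rw [sub_eq_add_neg]; exact co_ne (co_small h.1 h.2))
    have q : 1 + (cO n u).2.2 ^ n / (cO n u).2.1 ^ 3 = 1 - u.2 ^ n / u.1 ^ 6 := by
      rw [← inv_div, cO_eta hn, inv_div, div_neg, sub_eq_add_neg]
    have m : mO n (cO n u) = (Real.exp s : ℝ) * u.1 := by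
      have e3 : Real.exp (3 * s) = Real.exp s * Real.exp (2 * s) := by
        rw [← Real.exp_add]; congr 1; ring
      have : ((Real.exp (2 * s) : ℝ) : ℂ) ≠ 0 := by exact_mod_cast (Real.exp_pos _).ne'
      rw [mO, q, e]
      simp only [scl, Complex.real_smul, e3, Complex.ofReal_mul]
      generalize sq (1 - u.2 ^ n / u.1 ^ 6) = σ at h1
      field_simp
    have p : ((Real.exp (6 / n * s) : ℝ) : ℂ) ≠ 0 := by exact_mod_cast (Real.exp_pos _).ne'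
    refine Prod.ext ?_ ?_
    · simp only [cO', m, ph_pos_mul (Real.exp_pos s) (mem_S1.1 h.1)]
    · simp only [cO', m, norm_mul, Complex.norm_real, Real.norm_eq_abs, Real.abs_exp,
        mem_S1.1 h.1, mul_one, ← Real.exp_mul, mul_comm s]
      rw [e]
      simp only [scl, Complex.real_smul]
      exact mul_div_cancel_left₀ _ p
  · obtain ⟨k2, k3, hm⟩ := co_mO h.1.1 h.2
    have p := norm_pos_iff.2 hm
    have f := ph_mul_norm hm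
    obtain ⟨s, hs⟩ : ∃ s, Real.exp s = ‖mO n a‖ := ⟨_, Real.exp_log p⟩
    have e6 : ‖mO n a‖ ^ (6 / n : ℝ) = Real.exp (6 / n * s) := by
      rw [← hs, ← Real.exp_mul, mul_comm]
    have e2 : Real.exp (2 * s) = ‖mO n a‖ ^ 2 := by rw [← hs, ← Real.exp_nat_mul]; norm_num
    have e3 : Real.exp (3 * s) = ‖mO n a‖ ^ 3 := by rw [← hs, ← Real.exp_nat_mul]; norm_num
    have p6 : ((Real.exp (6 / n * s) : ℝ) : ℂ) ≠ 0 := by exact_mod_cast (Real.exp_pos _).ne'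
    have q : 1 - (cO' n a).2 ^ n / (cO' n a).1 ^ 6 = 1 + a.2.2 ^ n / a.2.1 ^ 3 := by
      have y3 : a.2.1 ^ 3 = -((‖mO n a‖ : ℂ) ^ 6 * ph (mO n a) ^ 6) := by
        rw [← mul_pow, f]; linear_combination (mO n a ^ 4 - mO n a ^ 2 * a.2.1 + a.2.1 ^ 2) * k2
      simp only [cO', e6, div_pow, ← Complex.ofReal_pow, co_exp hn, e2]
      rw [y3, div_div, div_neg, sub_eq_add_neg]
      push_cast
      ring
    have r : scl n s ((cO' n a).1 ^ 3 * sq (1 - (cO' n a).2 ^ n / (cO' n a).1 ^ 6),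
        -(cO' n a).1 ^ 2, (cO' n a).2) = a := by
      rw [q]
      simp only [scl, cO', Complex.real_smul, e2, e3, e6]
      refine Prod.ext ?_ (Prod.ext ?_ ?_) <;> simp only
      · rw [← k3, ← mul_assoc, Complex.ofReal_pow, ← mul_pow, f]
      · rw [mul_neg, Complex.ofReal_pow, ← mul_pow, f, k2, neg_neg]
      · exact mul_div_cancel₀ _ p6
    exact (toY_scl n s (co_rho (mem_S1.2 (ph_norm hm)) _ _)).symm.trans
      ((congrArg (toY n) r).trans (toY_self n h.1.2))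

/-- The monomial maps are monomial in the charts. -/
theorem cO_Jm (hn : n ≠ 0) (hn' : n' ≠ 0) {κ : ℝ} {i₁ i₂ e₁ e₂ : ℤ} (k l : ℤ) (h1 : κ * n' = n)
    (h2 : 6 * i₁ + n = n' * e₁) (h3 : 6 * i₂ = n' * e₂) {m w T : ℂ} (hm : m ∈ S1) (hw : w ≠ 0)
    (hT : T ∈ S1) : Jm κ i₁ i₂ e₁ e₂ k l (cO n (m, w), T) =
      (cO n' (ph w ^ i₁ * T ^ i₂ * m, ((‖w‖ ^ κ : ℝ) : ℂ) * (ph w ^ e₁ * T ^ e₂)),
        ph w ^ k * T ^ l) := by
  have _ := hm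
  have hT0 := S1_ne hT
  have hu0 := ph_ne hw
  have nv := norm_mon (ph_norm hw) (mem_S1.1 hT) i₁ i₂
  have v0 := S1_ne (mem_S1.2 nv)
  have a1 : ((‖w‖ ^ κ : ℝ) : ℂ) ^ n' = (‖w‖ : ℂ) ^ n := by
    rw [← Complex.ofReal_pow, ← Real.rpow_natCast, ← Real.rpow_mul (norm_nonneg _), h1,
      Real.rpow_natCast, Complex.ofReal_pow]
  have a2 : (ph w ^ e₁ * T ^ e₂) ^ n' = (ph w ^ i₁ * T ^ i₂) ^ 6 * ph w ^ n := by
    rw [← zpow_natCast, ← zpow_natCast, ← zpow_natCast, mul_zpow, mul_zpow, ← zpow_mul,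
      ← zpow_mul, ← zpow_mul, ← zpow_mul, mul_comm e₁, mul_comm e₂, ← h2, ← h3, zpow_add₀ hu0]
    push_cast; ring_nf
  have a3 : (((‖w‖ ^ κ : ℝ) : ℂ) * (ph w ^ e₁ * T ^ e₂)) ^ n' / (ph w ^ i₁ * T ^ i₂ * m) ^ 6 =
      w ^ n / m ^ 6 := by
    rw [mul_pow _ _ n', a1, a2, mul_left_comm, ← mul_pow _ _ n, ph_mul_norm hw, mul_pow _ m,
      mul_div_mul_left _ _ (pow_ne_zero _ v0)]
  have hp : ph (cO n (m, w)).2.2 = ph w := cO_ph n (m, w)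
  have hk : ∀ s : ℝ, ‖Real.exp (6 / n * s) • w‖ ^ κ = Real.exp (6 / n' * s) * ‖w‖ ^ κ := fun s => by
    have b1 : (n : ℝ) ≠ 0 := by exact_mod_cast hn
    have b2 : (n' : ℝ) ≠ 0 := by exact_mod_cast hn'
    rw [norm_smul, Real.norm_eq_abs, Real.abs_exp, Real.mul_rpow (Real.exp_pos _).le
      (norm_nonneg _), ← Real.exp_mul]
    congr 2
    field_simp
    linear_combination s * h1
  simp only [Jm, hp]
  generalize ph w ^ i₁ * T ^ i₂ = V at *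
  simp only [cO, toY, scl, a3, hk, norm_mul, norm_pow, norm_neg, nv, one_mul]
  refine Prod.ext (Prod.ext ?_ (Prod.ext ?_ ?_)) rfl <;>
    simp only [Complex.real_smul, Complex.ofReal_mul] <;> ring

end Pool.Agent.Lib.MP_b2e238_gt
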