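import Pool.Agent.Lib.MP_b2e238_gt.B.Om
import Pool.Agent.Lib.MP_b2e238_gt.K.Lev
import Pool.Agent.Lib.MP_b2e238_gt.K.Par

/-! The Brieskorn spheres as regular level sets with a global coframe. -/

open scoped ContDiff Topology ComplexConjugate
open Set Metric

noncomputable section

namespace Pool.Agent.Lib.MP_b2e238_gt

variable {n : ℕ} {a v : C3}

theorem lev_pol (n : ℕ) (a : C3) :
    HasFDerivAt (fun a : C3 => a.1 ^ 2 + a.2.1 ^ 3 + a.2.2 ^ n) (dotL (grd n a)) a := by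
  have x : HasFDerivAt (fun a : C3 => a.1) _ a := hasFDerivAt_fst (𝕜 := ℝ)
  have s : HasFDerivAt (fun a : C3 => a.2) _ a := hasFDerivAt_snd (𝕜 := ℝ)
  refine (((x.pow 2).add (s.fst.pow 3)).add (s.snd.pow n)).congr_fderiv
    (ContinuousLinearMap.ext fun v => ?_)
  simp [dotL_apply, grd]

theorem lev_ne (hn : n ≠ 0) (e : a.1 ^ 2 + a.2.1 ^ 3 + a.2.2 ^ n = 0) (h : a ≠ 0) :
    a.1 ≠ 0 ∨ a.2.1 ≠ 0 := by
  by_contra k
  push Not at k
  exact h (Prod.ext k.1 (Prod.ext k.2 (by simpa [k.1, k.2, hn] using e)))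

/-- Links cut out by a gauge that is transverse to the Euler field. -/
theorem lev_link (hn : n ≠ 0) {ρ : C3 → ℝ} (c : ContDiff ℝ ∞ ρ) {Y : Set C3}
    (e : ∀ a, a ∈ Y ↔ a.1 ^ 2 + a.2.1 ^ 3 + a.2.2 ^ n = 0 ∧ ρ a = 1) (k : IsCompact Y)
    (h : ∀ a ∈ Y, a ≠ 0) (r : ∀ a ∈ Y, fderiv ℝ ρ a (eul n a) ≠ 0) :
    Mf E3 Y ∧ Rt Y ∧ Cf Y (om n) ∧
      ∀ a ∈ Y, Tan Y a = {v | dotL (grd n a) v = 0 ∧ fderiv ℝ ρ a v = 0} := by
  have d : ∀ a, fderiv ℝ (fun a : C3 => (a.1 ^ 2 + a.2.1 ^ 3 + a.2.2 ^ n, ρ a)) a =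
      (dotL (grd n a)).prod (fderiv ℝ ρ a) := fun a =>
    ((lev_pol n a).prodMk (c.differentiable (by simp) a).hasFDerivAt).fderiv
  obtain ⟨p, q, t⟩ := level (P := E3) (w := ((0 : ℂ), (1 : ℝ))) (M := Y)
    (g := fun a : C3 => (a.1 ^ 2 + a.2.1 ^ 3 + a.2.2 ^ n, ρ a)) (ContDiff.prodMk (by fun_prop) c)
    (fun a => (e a).trans (by rw [Prod.mk.injEq])) k (fun a m => by
      rw [d]
      refine surj_prod (fun w => ?_) (by rw [dot_grd_eul, ((e a).1 m).1, mul_zero]) (r a m)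
      rcases lev_ne hn ((e a).1 m).1 (h a m) with l | l
      · exact ⟨(w / (2 * a.1), 0, 0), by simp [dotL_apply, grd]; field_simp⟩
      · exact ⟨(0, w / (3 * a.2.1 ^ 2), 0), by simp [dotL_apply, grd]; field_simp⟩) (by simp)
  have t' : ∀ a ∈ Y, Tan Y a = {v | dotL (grd n a) v = 0 ∧ fderiv ℝ ρ a v = 0} := fun a m => by
    rw [t a m, d]
    exact Set.ext fun v => Prod.ext_iff
  refine ⟨p, q, ⟨(contDiff_om n).contDiffOn, fun a m v u o => ?_⟩, t'⟩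
  rw [t' a m] at u
  obtain ⟨s, rfl⟩ := om_ker hn ((e a).1 m).1 (h a m) u.1 o
  rw [(mul_eq_zero.1 ((map_smul _ s _).symm.trans u.2)).resolve_right (r a m), zero_smul]

theorem Bri_ne (h : a ∈ Bri n) : a ≠ 0 := fun e => by simpa [e] using h.2

theorem Yn_ne (h : a ∈ Yn n) : a ≠ 0 := fun e => by simpa [e] using h.2

theorem isCompact_Bri (n : ℕ) : IsCompact (Bri n) := by
  refine (isCompact_closedBall (0 : C3) 1).of_isClosed_subset ((isClosed_eq (by fun_prop)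
    continuous_const).inter (isClosed_eq (by fun_prop) continuous_const)) fun a h => ?_
  have k := h.2
  simp only [mem_closedBall_zero_iff, Prod.norm_def, max_le_iff]
  refine ⟨?_, ?_, ?_⟩ <;> refine (sq_le_one_iff₀ (norm_nonneg _)).1 ?_ <;>
    nlinarith [sq_nonneg ‖a.1‖, sq_nonneg ‖a.2.1‖, sq_nonneg ‖a.2.2‖]

theorem isCompact_Yn (hn : n ≠ 0) : IsCompact (Yn n) := by
  refine (isCompact_closedBall (0 : C3) 2).of_isClosed_subset ((isClosed_eq (by fun_prop)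
    continuous_const).inter (isClosed_eq (by fun_prop) continuous_const)) fun a h => ?_
  have x : ‖a.1‖ ≤ 1 := (pow_le_one_iff_of_nonneg (norm_nonneg _) four_ne_zero).1
    (h.2 ▸ le_add_of_nonneg_right (by positivity))
  have y : ‖a.2.1‖ ≤ 1 := (pow_le_one_iff_of_nonneg (norm_nonneg _) (by norm_num : 6 ≠ 0)).1
    (h.2 ▸ le_add_of_nonneg_left (by positivity))
  have z : ‖a.2.2‖ ^ n ≤ 2 := by
    rw [← norm_pow, eq_neg_of_add_eq_zero_right h.1, norm_neg]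
    refine (norm_add_le _ _).trans ?_
    rw [norm_pow, norm_pow]
    linarith [pow_le_one₀ (norm_nonneg _) x (n := 2), pow_le_one₀ (norm_nonneg _) y (n := 3)]
  simp only [mem_closedBall_zero_iff, Prod.norm_def, max_le_iff]
  refine ⟨by linarith, by linarith, ?_⟩
  by_contra k
  exact k ((le_self_pow₀ (by linarith [not_le.1 k]) hn).trans z)

theorem lev_nsq (a : C3) : (HasFDerivAt (fun a : C3 => ‖a.1‖ ^ 2)
      (2 • (innerSL ℝ a.1).comp (ContinuousLinearMap.fst ℝ ℂ (ℂ × ℂ))) a ∧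
    HasFDerivAt (fun a : C3 => ‖a.2.1‖ ^ 2) (2 • (innerSL ℝ a.2.1).comp
      ((ContinuousLinearMap.fst ℝ ℂ ℂ).comp (ContinuousLinearMap.snd ℝ ℂ (ℂ × ℂ)))) a) ∧
    HasFDerivAt (fun a : C3 => ‖a.2.2‖ ^ 2) (2 • (innerSL ℝ a.2.2).comp
      ((ContinuousLinearMap.snd ℝ ℂ ℂ).comp (ContinuousLinearMap.snd ℝ ℂ (ℂ × ℂ)))) a :=
  ⟨⟨hasFDerivAt_fst.norm_sq, hasFDerivAt_snd.fst.norm_sq⟩, hasFDerivAt_snd.snd.norm_sq⟩

theorem lev_bri (hn : n ≠ 0) : Mf E3 (Bri n) ∧ Rt (Bri n) ∧ Cf (Bri n) (om n) ∧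
    ∀ a ∈ Bri n, Tan (Bri n) a = {v | dotL (grd n a) v = 0 ∧ (dotL (star a) v).re = 0} := by
  have c : ContDiff ℝ ∞ fun z : ℂ => ‖z‖ ^ 2 := contDiff_norm_sq ℝ
  have d : ∀ a v : C3, fderiv ℝ (fun a : C3 => ‖a.1‖ ^ 2 + ‖a.2.1‖ ^ 2 + ‖a.2.2‖ ^ 2) a v =
      2 * (dotL (star a) v).re := fun a v => by
    rw [(((lev_nsq a).1.1.fun_add (lev_nsq a).1.2).fun_add (lev_nsq a).2).fderiv]
    simp [Complex.inner, dotL_apply]
    ring
  simpa only [d, mul_eq_zero, two_ne_zero, false_or] using lev_link hn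
    (ρ := fun a => ‖a.1‖ ^ 2 + ‖a.2.1‖ ^ 2 + ‖a.2.2‖ ^ 2) (((c.comp contDiff_fst).add
    (c.comp (contDiff_fst.comp contDiff_snd))).add (c.comp (contDiff_snd.comp contDiff_snd)))
    (Y := Bri n) (fun _ => Iff.rfl) (isCompact_Bri n) (fun _ => Bri_ne) fun a m => by
      have k : dotL (star a) (eul n a) =
          (3 * n * ‖a.1‖ ^ 2 + 2 * n * ‖a.2.1‖ ^ 2 + 6 * ‖a.2.2‖ ^ 2 : ℝ) := by
        push_cast
        simp only [← Complex.conj_mul', dotL_apply, eul, Prod.fst_star, Prod.snd_star,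
          Complex.star_def]
        ring
      have l : (1 : ℝ) ≤ n := by exact_mod_cast Nat.one_le_iff_ne_zero.2 hn
      refine (d a _).trans_ne (ne_of_gt ?_)
      rw [k, Complex.ofReal_re]
      nlinarith [m.2, sq_nonneg ‖a.1‖, sq_nonneg ‖a.2.1‖, sq_nonneg ‖a.2.2‖]

theorem yn_lev (hn : n ≠ 0) : Mf E3 (Yn n) ∧ Rt (Yn n) ∧ Cf (Yn n) (om n) ∧
    ∀ a ∈ Yn n, Tan (Yn n) a = {v | dotL (grd n a) v = 0 ∧
      2 * ‖a.1‖ ^ 2 * (conj a.1 * v.1).re + 3 * ‖a.2.1‖ ^ 4 * (conj a.2.1 * v.2.1).re = 0} := by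
  have c : ContDiff ℝ ∞ fun z : ℂ => ‖z‖ ^ 2 := contDiff_norm_sq ℝ
  have d : ∀ a v : C3, fderiv ℝ (fun a : C3 => (‖a.1‖ ^ 2) ^ 2 + (‖a.2.1‖ ^ 2) ^ 3) a v =
      2 * (2 * ‖a.1‖ ^ 2 * (conj a.1 * v.1).re + 3 * ‖a.2.1‖ ^ 4 * (conj a.2.1 * v.2.1).re) :=
    fun a v => by
      rw [(((lev_nsq a).1.1.pow 2).fun_add ((lev_nsq a).1.2.pow 3)).fderiv]
      simp [Complex.inner]
      ring
  simpa only [d, mul_eq_zero, two_ne_zero, false_or] using lev_link hn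
    (ρ := fun a => (‖a.1‖ ^ 2) ^ 2 + (‖a.2.1‖ ^ 2) ^ 3)
    (((c.comp contDiff_fst).pow 2).add ((c.comp (contDiff_fst.comp contDiff_snd)).pow 3))
    (Y := Yn n) (fun _ => by simp only [← pow_mul]; rfl) (isCompact_Yn hn)
    (fun _ => Yn_ne) fun a m => by
      have k : ∀ (r : ℝ) (z : ℂ), (conj z * (r * n * z)).re = r * n * ‖z‖ ^ 2 := fun r z => by
        rw [mul_left_comm, Complex.conj_mul', ← Complex.ofReal_natCast, ← Complex.ofReal_pow,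
          ← Complex.ofReal_mul, ← Complex.ofReal_mul, Complex.ofReal_re]
      have l : (0 : ℝ) < n := Nat.cast_pos.2 (Nat.pos_of_ne_zero hn)
      refine (d a _).trans_ne (ne_of_gt ?_)
      have x := k 3 a.1
      have y := k 2 a.2.1
      simp only [Complex.ofReal_ofNat] at x y
      simp only [eul, x, y]
      calc 0 < 12 * n * (‖a.1‖ ^ 4 + ‖a.2.1‖ ^ 6) := by rw [m.2]; positivity
        _ = _ := by ring

theorem bri_lev (hn : n ≠ 0) : Mf E3 (Bri n) ∧ Rt (Bri n) ∧ ∀ a ∈ Bri n,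
    Tan (Bri n) a = {v | dotL (grd n a) v = 0 ∧ (dotL (star a) v).re = 0} :=
  ⟨(lev_bri hn).1, (lev_bri hn).2.1, (lev_bri hn).2.2.2⟩

theorem cf_bri (hn : n ≠ 0) : Cf (Bri n) (om n) := (lev_bri hn).2.2.1

theorem bri_yn (hn : n ≠ 0) : Dif (Bri n) (Yn n) (toY n) (toB n) :=
  have h := briY hn (A := Bri n) (B := Yn n) (fun _ => .rfl) fun _ => .rfl
  ⟨h.1, h.2.1, h.2.2.1, h.2.2.2.1, h.2.2.2.2.1, h.2.2.2.2.2⟩

theorem mf_yn (hn : n ≠ 0) : Mf E3 (Yn n) := (yn_lev hn).1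

theorem mf_YO (hn : n ≠ 0) : Mf (ℝ × E3) (YO n) :=
  (mf_yn hn).circ.opn (opn_iff.2 ⟨{a | a.1.2.2 ≠ 0}, isOpen_ne_fun (by fun_prop) continuous_const,
    Set.ext fun _ => and_assoc.symm⟩)

theorem mf_MM (hn : n ≠ 0) : Mf (ℝ × E3) (MM n) := (bri_lev hn).1.circ

theorem yo_mm (hn : n ≠ 0) :
    Dif (YO n) (MM n \ OO n) (Prod.map (toB n) id) (Prod.map (toY n) id) := by
  have h := (bri_yn hn).symm.prod (Dif.refl S1)
  have z : ∀ s (a : C3), (scl n s a).2.2 = 0 → a.2.2 = 0 := fun s a e =>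
    (smul_eq_zero.1 e).resolve_left (Real.exp_ne_zero _)
  exact h.restrict (fun _ m => ⟨m.1, m.2.1⟩) sdiff_subset
    (fun a m => ⟨h.mF ⟨m.1, m.2.1⟩, fun e => m.2.2 (z _ _ e.2)⟩) fun a m =>
      ⟨(h.mG m.1).1, m.1.2, fun e => m.2 ⟨m.1, z _ _ e⟩⟩

end Pool.Agent.Lib.MP_b2e238_gt
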