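import Pool.Agent.Lib.MP_b2e238_gt.C.Pi
import Pool.Agent.Lib.MP_b2e238_gt.B.CO
import Pool.Agent.Lib.MP_b2e238_gt.B.Lev

/-! The coordinates `(η, c, T)` are a diffeomorphism onto the regular part. -/

open scoped ContDiff Topology
open Set Metric

noncomputable section

namespace Pool.Agent.Lib.MP_b2e238_gt

variable {η c : ℂ}

theorem bri_mf {n : ℕ} (h : n ≠ 0) : Mf E3 (Bri n) := (bri_lev h).1

theorem bri_rt {n : ℕ} (h : n ≠ 0) : Rt (Bri n) := (bri_lev h).2.1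

theorem bri_cf {n : ℕ} (h : n ≠ 0) : Cf (Bri n) (om n) := cf_bri h

theorem mem_CC : η ∈ CC ↔ η ≠ 0 ∧ 1 + η ≠ 0 := by
  simp [CC, add_eq_zero_iff_eq_neg', not_or]

theorem isOpen_CC : IsOpen CC := (toFinite _).isClosed.isOpen_compl

theorem piD_zero {a b x : ℝ} (h : a < b) (k : x ≤ a) : cut a b x = 0 :=
  Real.smoothTransition.zero_of_nonpos (div_nonpos_of_nonpos_of_nonneg (by linarith) (by linarith))

theorem piD_one {a b x : ℝ} (h : a < b) (k : b ≤ x) : cut a b x = 1 :=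
  Real.smoothTransition.one_of_one_le ((one_le_div (by linarith)).2 (by linarith))

theorem piD_mem (a b x : ℝ) : 0 ≤ cut a b x ∧ cut a b x ≤ 1 :=
  ⟨Real.smoothTransition.nonneg _, Real.smoothTransition.le_one _⟩

theorem piD_cut (a b : ℝ) : ContDiff ℝ ∞ fun η : ℂ => cut a b (‖η‖ ^ 2) :=
  Real.smoothTransition.contDiff.comp (((contDiff_norm_sq ℝ).sub contDiff_const).div_const _)

theorem contDiff_lam : ContDiff ℝ ∞ lam :=
  (Complex.ofRealCLM.contDiff.comp (contDiff_const.sub (piD_cut 4 9))).add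
    ((Complex.ofRealCLM.contDiff.comp (piD_cut _ _)).mul contDiff_id)

theorem lam_ne (h : 1 + η ≠ 0) : lam η ≠ 0 := fun e => by
  have n := norm_nonneg η
  have k := congrArg norm (eq_neg_of_add_eq_zero_left e)
  obtain ⟨a, a'⟩ := piD_mem 4 9 (‖η‖ ^ 2)
  obtain ⟨b, b'⟩ := piD_mem (1 / 9) (1 / 4) (‖η‖ ^ 2)
  rw [norm_neg, norm_mul, Complex.norm_of_nonneg (by linarith), Complex.norm_of_nonneg b] at k
  by_cases p : ‖η‖ ^ 2 ≤ 4
  · have z := piD_zero (by norm_num : (4 : ℝ) < 9) p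
    by_cases q : 1 / 4 ≤ ‖η‖ ^ 2
    · exact h (by simpa [lam, z, -one_div, piD_one (by norm_num : (1 / 9 : ℝ) < 1 / 4) q] using e)
    · rw [z] at k
      nlinarith
  · rw [piD_one (by norm_num : (1 / 9 : ℝ) < 1 / 4) (by linarith)] at k
    nlinarith

theorem piD_re (η : ℂ) : 0 < (1 + (cut 4 9 (‖η‖ ^ 2) : ℝ) / η).re := by
  by_cases p : ‖η‖ ^ 2 ≤ 4
  · simp [piD_zero (by norm_num : (4 : ℝ) < 9) p]
  · obtain ⟨a, a'⟩ := piD_mem 4 9 (‖η‖ ^ 2)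
    have n : 2 < ‖η‖ := by nlinarith [norm_nonneg η]
    refine co_re ?_
    rw [norm_div, Complex.norm_of_nonneg a, div_lt_iff₀ (by linarith)]
    linarith

theorem piD_sq (η : ℂ) : sq (1 + (cut 4 9 (‖η‖ ^ 2) : ℝ) / η) ≠ 0 :=
  co_sq_ne fun e => (piD_re η).ne' (congrArg Complex.re e)

theorem gA_facts : ContDiffOn ℝ ∞ gA CC ∧ MapsTo gA CC S1 := by
  refine ⟨fun η m => ContDiffAt.contDiffWithinAt ?_, fun η m => mem_S1.2 ?_⟩ <;>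
    obtain ⟨p, q⟩ := mem_CC.1 m
  · exact ((ph_at contDiff_lam.contDiffAt (lam_ne q)).mul (ph_at (sq_at (contDiffAt_const.add
      ((Complex.ofRealCLM.contDiff.comp (piD_cut 4 9)).contDiffAt.mul (contDiffAt_id.inv p)))
        (piD_re η)) (piD_sq η))).mul ((ph_at contDiffAt_id p).inv (ph_ne p))
  · rw [gA, norm_div, norm_mul, ph_norm (lam_ne q), ph_norm (piD_sq η), ph_norm p, mul_one, div_one]

theorem gB_facts (k : ℤ) : ContDiffOn ℝ ∞ (gB k) CC ∧ MapsTo (gB k) CC S1 := by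
  refine ⟨fun η m => ContDiffAt.contDiffWithinAt ?_, fun η m => mem_S1.2 ?_⟩ <;>
    obtain ⟨p, q⟩ := mem_CC.1 m
  · exact (zpow_at (ph_at contDiff_lam.contDiffAt (lam_ne q)) (ph_ne (lam_ne q)) k).mul
      ((ph_at contDiffAt_id p).inv (ph_ne p))
  · rw [gB, norm_div, norm_zpow, ph_norm (lam_ne q), ph_norm p, one_zpow, div_one]

theorem piD_rho {a : C3} (h : a.1 ≠ 0) : ‖a.1‖ ^ 4 + ‖a.2.1‖ ^ 6 ≠ 0 := by positivity

theorem sec_eq (η c : ℂ) : ∃ r : ℝ, 0 < r ∧ sec η c = (r ^ 3 * (-c ^ 3 * η / (1 + η)),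
    r ^ 2 * (-c ^ 2 * η / (1 + η)), r ^ 6 * (-c ^ 6 * η ^ 2 / (1 + η) ^ 3)) :=
  ⟨_, Real.exp_pos _, by
    simp only [sec, toY, scl, Complex.real_smul, Nat.cast_one, div_one, ← Complex.ofReal_pow,
      ← Real.exp_nat_mul, Nat.cast_ofNat]
    rfl⟩

theorem sec_facts (h : η ∈ CC) (k : c ∈ S1) : sec η c ∈ Yn 1 ∧ (sec η c).1 ≠ 0 ∧
    (sec η c).2.1 ≠ 0 ∧ (sec η c).2.2 ≠ 0 ∧ (sec η c).2.1 ^ 3 / (sec η c).2.2 = η ∧
      ph ((sec η c).1 / (sec η c).2.1) = c := by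
  obtain ⟨p, q⟩ := mem_CC.1 h
  have n := S1_ne k
  have y := toY_rho 1 (a := (-c ^ 3 * η / (1 + η), -c ^ 2 * η / (1 + η),
    -c ^ 6 * η ^ 2 / (1 + η) ^ 3)) (piD_rho (by simp [p, q, n]))
  obtain ⟨r, l, e⟩ := sec_eq η c
  have m : (r : ℂ) ≠ 0 := Complex.ofReal_ne_zero.2 l.ne'
  refine ⟨⟨?_, y⟩, ?_⟩ <;> rw [e]
  · field_simp
    ring
  · refine ⟨by simp [p, q, n, m], by simp [p, q, n, m], by simp [p, q, n, m], by field_simp, ?_⟩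
    rw [← ph_pos_mul l (mem_S1.1 k)]
    congr 1
    rw [ph_pos_mul l (mem_S1.1 k)]
    field_simp

theorem sec_at (h : η ∈ CC) (k : c ≠ 0) :
    ContDiffAt ℝ ∞ (fun u : ℂ × ℂ => sec u.1 u.2) (η, c) := by
  obtain ⟨p, q⟩ := mem_CC.1 h
  have i : ContDiffAt ℝ ∞ (fun u : ℂ × ℂ => (1 + u.1)⁻¹) (η, c) :=
    (contDiffAt_const.add contDiffAt_fst).inv q
  refine ((toY_contDiffOn 1).contDiffAt ((isOpen_ne_fun (by fun_prop) continuous_const).mem_nhds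
    (piD_rho (by simp [p, q, k])))).comp (η, c) (f := fun u : ℂ × ℂ =>
      (-u.2 ^ 3 * u.1 / (1 + u.1), -u.2 ^ 2 * u.1 / (1 + u.1), -u.2 ^ 6 * u.1 ^ 2 / (1 + u.1) ^ 3)) ?_
  simp only [div_eq_mul_inv, ← inv_pow]
  fun_prop

theorem sec_self {a : C3} (h : a ∈ Yn 1) (x : a.1 ≠ 0) (y : a.2.1 ≠ 0) (z : a.2.2 ≠ 0) :
    a.2.1 ^ 3 / a.2.2 ∈ CC ∧ sec (a.2.1 ^ 3 / a.2.2) (ph (a.1 / a.2.1)) = a := by
  have e : 1 + a.2.1 ^ 3 / a.2.2 = -a.1 ^ 2 / a.2.2 := by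
    field_simp
    linear_combination h.1
  have r := norm_pos_iff.2 (div_ne_zero x y)
  have m : ((‖a.1 / a.2.1‖ : ℝ) : ℂ) ≠ 0 := Complex.ofReal_ne_zero.2 r.ne'
  refine ⟨mem_CC.2 ⟨by simp [y, z], by simp [e, x, z]⟩, Eq.trans ?_
    ((toY_scl 1 (-Real.log ‖a.1 / a.2.1‖) (piD_rho x)).trans (toY_self 1 h.2))⟩
  rw [sec, e]
  have k : ∀ j : ℕ, Real.exp (j * -Real.log ‖a.1 / a.2.1‖) = ‖a.1 / a.2.1‖⁻¹ ^ j := fun j => by
    rw [Real.exp_nat_mul, Real.exp_neg, Real.exp_log r]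
  have k2 := k 2
  have k3 := k 3
  have k6 := k 6
  simp only [Nat.cast_ofNat] at k2 k3 k6
  simp only [scl, Nat.cast_one, div_one, k2, k3, k6, ph, Complex.real_smul]
  generalize ‖a.1 / a.2.1‖ = s at m
  congr 1
  refine Prod.ext ?_ (Prod.ext ?_ ?_) <;> push_cast <;> field_simp

theorem pi_dif (i : ℕ) : Dif (CC ×ˢ S1 ×ˢ S1) YR (PiE i) (PiI i) := by
  have A := gA_facts
  have B := gB_facts (4 - i)
  have u : ∀ {a b : ℂ}, a ∈ S1 → b ∈ S1 → a * b ∈ S1 := fun p q => mem_S1.2 (by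
    rw [norm_mul, mem_S1.1 p, mem_S1.1 q, mul_one])
  have v : ∀ {a b : ℂ}, a ∈ S1 → b ∈ S1 → a / b ∈ S1 := fun p q => mem_S1.2 (by
    rw [norm_div, mem_S1.1 p, mem_S1.1 q, div_one])
  have s := fun (a : C3 × ℂ) (m : a ∈ YR) => sec_self m.1.1 m.2.1 m.2.2 m.1.2.2
  have f := fun (a : C3) (m : a ∈ CC ×ˢ S1 ×ˢ S1) => sec_facts m.1 (u m.2.1 (A.2 m.1))
  refine ⟨fun a m => ContDiffAt.contDiffWithinAt ?_, fun a m => ContDiffAt.contDiffWithinAt ?_,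
    fun a m => ⟨⟨(f a m).1, u m.2.2 (B.2 m.1), (f a m).2.2.2.1⟩, (f a m).2.1, (f a m).2.2.1⟩,
    fun a m => ⟨(s a m).1, v (mem_S1.2 (ph_norm (div_ne_zero m.2.1 m.2.2))) (A.2 (s a m).1),
      v m.1.2.1 (B.2 (s a m).1)⟩, fun a m => ?_, fun a m => ?_⟩
  · have o := isOpen_CC.mem_nhds m.1
    exact ((sec_at m.1 (S1_ne (u m.2.1 (A.2 m.1)))).comp a (contDiffAt_fst.prodMk
      (contDiffAt_snd.fst.mul ((A.1.contDiffAt o).comp a contDiffAt_fst)))).prodMk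
        (contDiffAt_snd.snd.mul ((B.1.contDiffAt o).comp a contDiffAt_fst))
  · have o := isOpen_CC.mem_nhds (s a m).1
    have e : ContDiffAt ℝ ∞ (fun a : C3 × ℂ => a.1.2.1 ^ 3 / a.1.2.2) a :=
      (contDiffAt_fst.snd.fst.pow 3).mul (contDiffAt_fst.snd.snd.inv m.1.2.2)
    have p : ContDiffAt ℝ ∞ (fun a : C3 × ℂ => a.1.1 / a.1.2.1) a :=
      contDiffAt_fst.fst.mul (contDiffAt_fst.snd.fst.inv m.2.2)
    have q : ContDiffAt ℝ ∞ (fun a : C3 × ℂ => gA (a.1.2.1 ^ 3 / a.1.2.2)) a :=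
      ContDiffAt.comp (g := gA) a (A.1.contDiffAt o) e
    have r : ContDiffAt ℝ ∞ (fun a : C3 × ℂ => gB (4 - i) (a.1.2.1 ^ 3 / a.1.2.2)) a :=
      ContDiffAt.comp (g := gB (4 - i)) a (B.1.contDiffAt o) e
    exact e.prodMk (((ph_at p (div_ne_zero m.2.1 m.2.2)).mul (q.inv
      (S1_ne (A.2 (s a m).1)))).prodMk (contDiffAt_snd.mul (r.inv (S1_ne (B.2 (s a m).1)))))
  · simp only [PiI, PiE, (f a m).2.2.2.2.1, (f a m).2.2.2.2.2,
      mul_div_cancel_right₀ _ (S1_ne (A.2 m.1)), mul_div_cancel_right₀ _ (S1_ne (B.2 m.1))]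
  · simp only [PiI, PiE, div_mul_cancel₀ _ (S1_ne (A.2 (s a m).1)),
      div_mul_cancel₀ _ (S1_ne (B.2 (s a m).1)), (s a m).2]

theorem yr_opn : Opn YR (YO 1) :=
  opn_iff.2 ⟨{a | a.1.1 ≠ 0 ∧ a.1.2.1 ≠ 0}, (isOpen_ne_fun (by fun_prop) continuous_const).inter
    (isOpen_ne_fun (by fun_prop) continuous_const), rfl⟩

end Pool.Agent.Lib.MP_b2e238_gt
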