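import Pool.Agent.Lib.MP_b2e238_gt.B.Lev
import Pool.Agent.Lib.MP_b2e238_gt.K.HU

/-! The twist along the circle action. -/

open scoped ContDiff Topology
open Set Metric

noncomputable section

namespace Pool.Agent.Lib.MP_b2e238_gt

variable {n n' : ℕ} {a v : C3}

theorem hY_mul (n : ℕ) (σ τ : ℂ) (a : C3) : hY n σ (hY n τ a) = hY n (σ * τ) a := by
  simp only [hY, mul_pow, mul_assoc]

theorem hY_one (n : ℕ) (a : C3) : hY n 1 a = a := by simp [hY]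

theorem tw_pol (n : ℕ) (τ : ℂ) (a : C3) :
    (hY n τ a).1 ^ 2 + (hY n τ a).2.1 ^ 3 + (hY n τ a).2.2 ^ n =
      τ ^ (6 * n) * (a.1 ^ 2 + a.2.1 ^ 3 + a.2.2 ^ n) := by
  simp only [hY]
  ring

theorem hY_bri {τ : ℂ} (h : ‖τ‖ = 1) (m : a ∈ Bri n) : hY n τ a ∈ Bri n :=
  ⟨by rw [tw_pol, m.1, mul_zero], by simpa [hY, h] using m.2⟩

theorem hY_yn {τ : ℂ} (h : ‖τ‖ = 1) (m : a ∈ Yn n) : hY n τ a ∈ Yn n :=
  ⟨by rw [tw_pol, m.1, mul_zero], by simpa [hY, h] using m.2⟩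

theorem tw_pow (m : ℕ) (x : ℂ) (t : ℝ) : HasDerivAt (fun s => ex s ^ m * x)
    (2 * Real.pi * Complex.I * (m * (ex t ^ m * x))) t := by
  refine (((hasDerivAt_ex t).pow m).mul_const x).congr_deriv ?_
  cases m with
  | zero => simp
  | succ m => simp only [Nat.add_sub_cancel]; ring

theorem hasDerivAt_hY (n : ℕ) (a : C3) (t : ℝ) : HasDerivAt (fun s => hY n (ex s) a)
    ((2 * Real.pi * Complex.I : ℂ) • eul n (hY n (ex t) a)) t := by
  refine ((tw_pow (3 * n) a.1 t).prodMk ((tw_pow (2 * n) a.2.1 t).prodMk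
    (tw_pow 6 a.2.2 t))).congr_deriv ?_
  simp [eul, hY]

theorem tw_at (n : ℕ) (k : ℤ) {p : C3 × ℂ} (h : p.2 ≠ 0) :
    ContDiffAt ℝ ∞ (fun p : C3 × ℂ => hY n (p.2 ^ k) p.1) p := by
  have := zpow_at (f := fun p : C3 × ℂ => p.2) contDiffAt_snd h k
  unfold hY
  fun_prop

theorem hY_dif (n : ℕ) (k : ℤ) : Dif (MM n) (MM n) (fun p => (hY n (p.2 ^ k) p.1, p.2))
    fun p => (hY n (p.2 ^ (-k)) p.1, p.2) := by
  have c (k : ℤ) : ContDiffOn ℝ ∞ (fun p : C3 × ℂ => (hY n (p.2 ^ k) p.1, p.2)) (MM n) :=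
    fun p h => ((tw_at n k (S1_ne h.2)).prodMk contDiffAt_snd).contDiffWithinAt
  have m (k : ℤ) : MapsTo (fun p : C3 × ℂ => (hY n (p.2 ^ k) p.1, p.2)) (MM n) (MM n) :=
    fun p h => ⟨hY_bri (by rw [norm_zpow, mem_S1.1 h.2, one_zpow]) h.1, h.2⟩
  refine ⟨c k, c _, m k, m _, fun p h => Prod.ext ?_ rfl, fun p h => Prod.ext ?_ rfl⟩ <;>
    simp only [hY_mul, ← zpow_add₀ (S1_ne h.2), neg_add_cancel, add_neg_cancel, zpow_zero, hY_one]

theorem tw_ex (k : ℤ) (t : ℝ) : ex (k * t) = ex t ^ k := by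
  rw [ex, ex, ← Complex.exp_int_mul]
  push_cast
  ring_nf

/-- The derivative of the twist along the first factor. -/
theorem tw_der (n : ℕ) (k : ℤ) {p : C3 × ℂ} (h : p.2 ≠ 0) (v : C3) :
    fderiv ℝ (fun p : C3 × ℂ => hY n (p.2 ^ k) p.1) p (v, 0) = hY n (p.2 ^ k) v := by
  have d := HasFDerivAt.comp (f := fun e : C3 => (e, p.2)) p.1
    ((tw_at n k h).differentiableAt (by simp)).hasFDerivAt (hasFDerivAt_prodMk_left p.1 p.2)
  exact DFunLike.congr_fun (d.unique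
    ((ContinuousLinearMap.mul ℝ ℂ ((p.2 ^ k) ^ (3 * n))).prodMap
      ((ContinuousLinearMap.mul ℝ ℂ ((p.2 ^ k) ^ (2 * n))).prodMap
        (ContinuousLinearMap.mul ℝ ℂ ((p.2 ^ k) ^ 6)))).hasFDerivAt) v

theorem tw_mu : Continuous mu := continuous_clm_apply.2 fun x => by
  simp only [om_mu]
  fun_prop

theorem tw_inj {g : ℂ} (h : g ≠ 0) : mu g ∈ Inj E3 := fun _ _ e =>
  Prod.ext (mul_left_cancel₀ h (congrArg Prod.fst e)) (congrArg Prod.snd e :)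

theorem Gq.twist {W : Type} [NormedAddCommGroup W] [NormedSpace ℝ W] [FiniteDimensional ℝ W]
    {X : Set W} {γ : ℝ → C3} {A : ℝ → E3 →L[ℝ] E3} (z : Gq (Bri n) (om n) γ A X) (hn : n ≠ 0)
    (k : ℤ) : Gq (Bri n) (om n) (fun t => hY n (ex (k * t)) (γ t))
      (fun t => mu (ex ((6 - n) * k * t)) ∘L A t) X := by
  have e (t : ℝ) : ex ((6 - n) * k * t) = (ex t ^ k) ^ (6 - n : ℤ) := by
    rw [← tw_ex, ← tw_ex]
    push_cast
    rw [mul_assoc]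
  simp only [tw_ex, e]
  exact z.gauge (Φ := fun p => hY n (p.2 ^ k) p.1) (B := fun p => mu ((p.2 ^ k) ^ (6 - n : ℤ)))
    (hY_dif n k) (fun p h => (tw_at n k (S1_ne h.2)).differentiableAt (by simp))
    (fun p h => (tw_mu.continuousAt.comp (zpow_at (zpow_at (f := fun p : C3 × ℂ => p.2)
      contDiffAt_snd (S1_ne h.2) k) (zpow_ne_zero _ (S1_ne h.2)) _).continuousAt).continuousWithinAt)
    (fun p h => tw_inj (zpow_ne_zero _ (zpow_ne_zero _ (S1_ne h.2)))) fun p h v _ => by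
      rw [tw_der n k (S1_ne h.2), om_hY hn (by rw [norm_zpow, mem_S1.1 h.2, one_zpow])]

end Pool.Agent.Lib.MP_b2e238_gt
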