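import Mathlib

/-! The weighted radial projection between two models of a Brieskorn link. -/

open scoped ContDiff Topology
open Set Filter Function

noncomputable section

namespace Pool.Agent.Lib.MP_b2e238_gt

/-- A globally unique simple root of a smooth equation depends smoothly on the parameters. -/
theorem root_smooth {E : Type*} [NormedAddCommGroup E] [NormedSpace ℝ E] [CompleteSpace E]
    {F : E × ℝ → ℝ} {s : E → ℝ} {a : E} {c d : ℝ} (hF : ContDiffAt ℝ ∞ F (a, s a))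
    (h : ∀ᶠ x in 𝓝 a, ∀ t, F (x, t) = c ↔ t = s x) (hd : HasDerivAt (fun t => F (a, t)) d (s a))
    (d0 : d ≠ 0) : ContDiffAt ℝ ∞ s a := by
  have k : HasFDerivAt (fun t => F (a, t))
      (fderiv ℝ F (a, s a) ∘L ContinuousLinearMap.inr ℝ E ℝ) (s a) :=
    (hF.differentiableAt (by simp)).hasFDerivAt.comp (s a) (hasFDerivAt_prodMk_right a (s a))
  have i : (fderiv ℝ F (a, s a) ∘L ContinuousLinearMap.inr ℝ E ℝ).IsInvertible := by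
    rw [k.unique hd.hasFDerivAt]
    exact ⟨ContinuousLinearEquiv.unitsEquivAut ℝ (Units.mk0 d d0), by ext; simp⟩
  refine (hF.contDiffAt_implicitFunction (by simp) i).congr_of_eventuallyEq ?_
  filter_upwards [h, hF.eventually_apply_implicitFunction (by simp) i] with x h1 h2
  exact ((h1 _).1 (h2.trans ((h.self_of_nhds _).2 rfl))).symm

theorem briY_der (p q r A B C s : ℝ) :
    HasDerivAt (fun t => Real.exp (p * t) * A + Real.exp (q * t) * B + Real.exp (r * t) * C)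
      (Real.exp (p * s) * p * A + Real.exp (q * s) * q * B + Real.exp (r * s) * r * C) s := by
  have k : ∀ p A : ℝ, HasDerivAt (fun t => Real.exp (p * t) * A) (Real.exp (p * s) * p * A) s :=
    fun p A => by simpa using ((hasDerivAt_id s).const_mul p).exp.mul_const A
  exact ((k p A).add (k q B)).add (k r C)

theorem briY_pos {p q r A B C : ℝ} (hp : 0 < p) (hq : 0 < q) (hr : 0 < r) (hA : 0 ≤ A) (hB : 0 ≤ B)
    (hC : 0 ≤ C) (h : 0 < A + B + C) : 0 < p * A + q * B + r * C := by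
  have h1 := mul_nonneg hp.le hA
  have h2 := mul_nonneg hq.le hB
  have h3 := mul_nonneg hr.le hC
  by_contra hn
  have k1 : A = 0 := (mul_eq_zero.1 (by linarith : p * A = 0)).resolve_left hp.ne'
  have k2 : B = 0 := (mul_eq_zero.1 (by linarith : q * B = 0)).resolve_left hq.ne'
  have k3 : C = 0 := (mul_eq_zero.1 (by linarith : r * C = 0)).resolve_left hr.ne'
  linarith

theorem briY_root {p q r A B C : ℝ} (hp : 0 < p) (hq : 0 < q) (hr : 0 < r) (hA : 0 ≤ A)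
    (hB : 0 ≤ B) (hC : 0 ≤ C) (h : 0 < A + B + C) :
    ∃! s, Real.exp (p * s) * A + Real.exp (q * s) * B + Real.exp (r * s) * C = 1 := by
  have m : StrictMono
      fun t => Real.exp (p * t) * A + Real.exp (q * t) * B + Real.exp (r * t) * C :=
    strictMono_of_hasDerivAt_pos (briY_der p q r A B C) fun s => briY_pos
      (mul_pos (Real.exp_pos _) hp) (mul_pos (Real.exp_pos _) hq) (mul_pos (Real.exp_pos _) hr)
      hA hB hC h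
  have k : ∀ p A : ℝ, 0 < p → Tendsto (fun t => Real.exp (p * t) * A) atBot (𝓝 0) := fun p A hp => by
    simpa using (Real.tendsto_exp_atBot.comp (tendsto_id.const_mul_atBot hp)).mul_const A
  have l := ((k p A hp).add (k q B hq)).add (k r C hr)
  obtain ⟨a, ha⟩ := (l.eventually (gt_mem_nhds (by norm_num : (0 : ℝ) + 0 + 0 < 1))).exists
  have D := briY_pos hp hq hr hA hB hC h
  obtain ⟨s, hs⟩ := mem_range_of_exists_le_of_exists_ge (c := 1) (f := fun t =>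
    Real.exp (p * t) * A + Real.exp (q * t) * B + Real.exp (r * t) * C) (by fun_prop) ⟨a, ha.le⟩
    ⟨(p * A + q * B + r * C)⁻¹, by
      set t := (p * A + q * B + r * C)⁻¹
      have e : (p * A + q * B + r * C) * t = 1 := mul_inv_cancel₀ D.ne'
      have h1 := mul_le_mul_of_nonneg_right (Real.add_one_le_exp (p * t)) hA
      have h2 := mul_le_mul_of_nonneg_right (Real.add_one_le_exp (q * t)) hB
      have h3 := mul_le_mul_of_nonneg_right (Real.add_one_le_exp (r * t)) hC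
      show 1 ≤ _
      nlinarith⟩
  exact ⟨s, hs, fun t ht => m.injective (ht.trans hs.symm)⟩

/-- The weighted scaling by `exp s`. -/
def scl (n : ℕ) (s : ℝ) (a : ℂ × ℂ × ℂ) : ℂ × ℂ × ℂ :=
  (Real.exp (3 * s) • a.1, Real.exp (2 * s) • a.2.1, Real.exp (6 / n * s) • a.2.2)

theorem scl_scl (n : ℕ) (s t : ℝ) (a : ℂ × ℂ × ℂ) : scl n s (scl n t a) = scl n (s + t) a := by
  simp only [scl, smul_smul, ← Real.exp_add, mul_add]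

theorem scl_zero (n : ℕ) (a : ℂ × ℂ × ℂ) : scl n 0 a = a := by simp [scl]

theorem scl_contDiff (n : ℕ) : ContDiff ℝ ∞ fun u : ℝ × ℂ × ℂ × ℂ => scl n u.1 u.2 := by
  unfold scl; fun_prop

theorem scl_eq {n : ℕ} (hn : n ≠ 0) (s : ℝ) (a : ℂ × ℂ × ℂ) :
    (scl n s a).1 ^ 2 + (scl n s a).2.1 ^ 3 + (scl n s a).2.2 ^ n =
      Real.exp (6 * s) • (a.1 ^ 2 + a.2.1 ^ 3 + a.2.2 ^ n) := by
  have k : (n : ℝ) * (6 / n * s) = 6 * s := by field_simp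
  simp only [scl, smul_pow, smul_add, ← Real.exp_nat_mul, k]
  congr 4 <;> push_cast <;> ring

theorem scl_rho (n : ℕ) (s : ℝ) (a : ℂ × ℂ × ℂ) :
    ‖(scl n s a).1‖ ^ 4 + ‖(scl n s a).2.1‖ ^ 6 = Real.exp (12 * s) * (‖a.1‖ ^ 4 + ‖a.2.1‖ ^ 6) := by
  simp only [scl, norm_smul, Real.norm_eq_abs, Real.abs_exp, mul_pow, mul_add, ← Real.exp_nat_mul]
  congr 3 <;> push_cast <;> ring

theorem scl_norm (n : ℕ) (s : ℝ) (a : ℂ × ℂ × ℂ) :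
    ‖(scl n s a).1‖ ^ 2 + ‖(scl n s a).2.1‖ ^ 2 + ‖(scl n s a).2.2‖ ^ 2 =
      Real.exp (6 * s) * ‖a.1‖ ^ 2 + Real.exp (4 * s) * ‖a.2.1‖ ^ 2 +
        Real.exp (12 / n * s) * ‖a.2.2‖ ^ 2 := by
  simp only [scl, norm_smul, Real.norm_eq_abs, Real.abs_exp, mul_pow, ← Real.exp_nat_mul]
  rw [show ((2 : ℕ) : ℝ) * (3 * s) = 6 * s by push_cast; ring,
    show ((2 : ℕ) : ℝ) * (2 * s) = 4 * s by push_cast; ring,
    show ((2 : ℕ) : ℝ) * (6 / n * s) = 12 / n * s by push_cast; ring]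

open Classical in
/-- The scaling parameter that moves a point with the given norms to the unit sphere. -/
def sclRt (n : ℕ) (A B C : ℝ) : ℝ :=
  epsilon fun s => Real.exp (6 * s) * A + Real.exp (4 * s) * B + Real.exp (12 / n * s) * C = 1

/-- Weighted radial projection to `|x|^4 + |y|^6 = 1`. -/
def toY (n : ℕ) (a : ℂ × ℂ × ℂ) : ℂ × ℂ × ℂ :=
  scl n (-(Real.log (‖a.1‖ ^ 4 + ‖a.2.1‖ ^ 6) / 12)) a

/-- Weighted radial projection to the unit sphere. -/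
def toB (n : ℕ) (a : ℂ × ℂ × ℂ) : ℂ × ℂ × ℂ :=
  scl n (sclRt n (‖a.1‖ ^ 2) (‖a.2.1‖ ^ 2) (‖a.2.2‖ ^ 2)) a

theorem briY_ne {a : ℂ × ℂ × ℂ} (h : a ≠ 0) : 0 < ‖a.1‖ ^ 2 + ‖a.2.1‖ ^ 2 + ‖a.2.2‖ ^ 2 := by
  by_contra hn
  have h1 := sq_nonneg ‖a.1‖
  have h2 := sq_nonneg ‖a.2.1‖
  have h3 := sq_nonneg ‖a.2.2‖
  refine h (Prod.ext ?_ (Prod.ext ?_ ?_))
  · simpa using (by linarith : ‖a.1‖ ^ 2 = 0)
  · simpa using (by linarith : ‖a.2.1‖ ^ 2 = 0)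
  · simpa using (by linarith : ‖a.2.2‖ ^ 2 = 0)

theorem sclRt_iff {n : ℕ} (hn : n ≠ 0) {a : ℂ × ℂ × ℂ} (h : a ≠ 0) (s : ℝ) :
    Real.exp (6 * s) * ‖a.1‖ ^ 2 + Real.exp (4 * s) * ‖a.2.1‖ ^ 2 +
      Real.exp (12 / n * s) * ‖a.2.2‖ ^ 2 = 1 ↔
      s = sclRt n (‖a.1‖ ^ 2) (‖a.2.1‖ ^ 2) (‖a.2.2‖ ^ 2) := by
  have k := briY_root (p := 6) (q := 4) (r := 12 / n) (by norm_num) (by norm_num) (by positivity)
    (sq_nonneg _) (sq_nonneg _) (sq_nonneg _) (briY_ne h)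
  have e := Classical.epsilon_spec k.exists
  exact ⟨fun hs => k.unique hs e, fun hs => hs ▸ e⟩

theorem toY_contDiffOn (n : ℕ) :
    ContDiffOn ℝ ∞ (toY n) {a | ‖a.1‖ ^ 4 + ‖a.2.1‖ ^ 6 ≠ 0} := by
  have k : ContDiff ℝ ∞ fun a : ℂ × ℂ × ℂ => ‖a.1‖ ^ 4 + ‖a.2.1‖ ^ 6 := by
    have e : (fun a : ℂ × ℂ × ℂ => ‖a.1‖ ^ 4 + ‖a.2.1‖ ^ 6) =
        fun a => (‖a.1‖ ^ 2) ^ 2 + (‖a.2.1‖ ^ 2) ^ 3 := by funext a; ring
    rw [e]
    exact ((contDiff_fst.norm_sq ℝ).pow 2).add ((contDiff_snd.fst.norm_sq ℝ).pow 3)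
  exact (scl_contDiff n).comp_contDiffOn
    (((k.contDiffOn.log fun _ h => h).div_const 12).neg.prodMk contDiffOn_id)

theorem toB_contDiffOn {n : ℕ} (hn : n ≠ 0) : ContDiffOn ℝ ∞ (toB n) {a | a ≠ 0} := by
  refine (scl_contDiff n).comp_contDiffOn (ContDiffOn.prodMk (fun a ha => ?_) contDiffOn_id)
  have k1 : ContDiff ℝ ∞ fun u : (ℂ × ℂ × ℂ) × ℝ => ‖u.1.1‖ ^ 2 := contDiff_fst.fst.norm_sq ℝ
  have k2 : ContDiff ℝ ∞ fun u : (ℂ × ℂ × ℂ) × ℝ => ‖u.1.2.1‖ ^ 2 := contDiff_fst.snd.fst.norm_sq ℝ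
  have k3 : ContDiff ℝ ∞ fun u : (ℂ × ℂ × ℂ) × ℝ => ‖u.1.2.2‖ ^ 2 := contDiff_fst.snd.snd.norm_sq ℝ
  have k : ∀ p : ℝ, ContDiff ℝ ∞ fun u : (ℂ × ℂ × ℂ) × ℝ => Real.exp (p * u.2) := fun p => by
    fun_prop
  refine (root_smooth (F := fun u : (ℂ × ℂ × ℂ) × ℝ => Real.exp (6 * u.2) * ‖u.1.1‖ ^ 2 +
    Real.exp (4 * u.2) * ‖u.1.2.1‖ ^ 2 + Real.exp (12 / n * u.2) * ‖u.1.2.2‖ ^ 2) (c := 1)
    ((((k _).mul k1).add ((k _).mul k2)).add ((k _).mul k3)).contDiffAt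
    ((isOpen_ne.eventually_mem ha).mono fun x hx => sclRt_iff hn hx)
    (briY_der 6 4 (12 / n) (‖a.1‖ ^ 2) (‖a.2.1‖ ^ 2) (‖a.2.2‖ ^ 2) _) (briY_pos ?_ ?_ ?_ (sq_nonneg _) (sq_nonneg _) (sq_nonneg _)
      (briY_ne ha)).ne').contDiffWithinAt <;> positivity

theorem toY_rho (n : ℕ) {a : ℂ × ℂ × ℂ} (h : ‖a.1‖ ^ 4 + ‖a.2.1‖ ^ 6 ≠ 0) :
    ‖(toY n a).1‖ ^ 4 + ‖(toY n a).2.1‖ ^ 6 = 1 := by
  have p : 0 < ‖a.1‖ ^ 4 + ‖a.2.1‖ ^ 6 := lt_of_le_of_ne (by positivity) h.symm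
  rw [toY, scl_rho, show 12 * -(Real.log (‖a.1‖ ^ 4 + ‖a.2.1‖ ^ 6) / 12) =
    -Real.log (‖a.1‖ ^ 4 + ‖a.2.1‖ ^ 6) by ring, Real.exp_neg, Real.exp_log p, inv_mul_cancel₀ h]

theorem toB_norm {n : ℕ} (hn : n ≠ 0) {a : ℂ × ℂ × ℂ} (h : a ≠ 0) :
    ‖(toB n a).1‖ ^ 2 + ‖(toB n a).2.1‖ ^ 2 + ‖(toB n a).2.2‖ ^ 2 = 1 := by
  rw [toB, scl_norm, sclRt_iff hn h]

theorem scl_ne {n : ℕ} {s : ℝ} {a : ℂ × ℂ × ℂ} (h : a ≠ 0) : scl n s a ≠ 0 := fun e => h (by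
  rw [← scl_zero n a, ← neg_add_cancel s, ← scl_scl, e]; simp [scl])

theorem toY_scl (n : ℕ) (s : ℝ) {a : ℂ × ℂ × ℂ} (h : ‖a.1‖ ^ 4 + ‖a.2.1‖ ^ 6 ≠ 0) :
    toY n (scl n s a) = toY n a := by
  rw [toY, toY, scl_rho, Real.log_mul (Real.exp_ne_zero _) h, Real.log_exp, scl_scl]
  congr 1; ring

theorem toB_scl {n : ℕ} (hn : n ≠ 0) (s : ℝ) {a : ℂ × ℂ × ℂ} (h : a ≠ 0) :
    toB n (scl n s a) = toB n a := by
  have k := toB_norm hn (scl_ne (n := n) (s := s) h)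
  rw [toB, scl_scl] at k ⊢
  rw [scl_norm, sclRt_iff hn h] at k
  rw [k, toB]

theorem toY_self (n : ℕ) {a : ℂ × ℂ × ℂ} (h : ‖a.1‖ ^ 4 + ‖a.2.1‖ ^ 6 = 1) : toY n a = a := by
  simp [toY, h, scl_zero]

theorem toB_self {n : ℕ} (hn : n ≠ 0) {a : ℂ × ℂ × ℂ}
    (h : ‖a.1‖ ^ 2 + ‖a.2.1‖ ^ 2 + ‖a.2.2‖ ^ 2 = 1) : toB n a = a := by
  have k : a ≠ 0 := fun e => by simp [e] at h
  rw [toB, ← (sclRt_iff hn k 0).1 (by simpa using h), scl_zero]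

theorem briY_rho {n : ℕ} (hn : n ≠ 0) {a : ℂ × ℂ × ℂ} (h : a.1 ^ 2 + a.2.1 ^ 3 + a.2.2 ^ n = 0)
    (k : a ≠ 0) : ‖a.1‖ ^ 4 + ‖a.2.1‖ ^ 6 ≠ 0 := fun e => by
  have h1 : 0 ≤ ‖a.1‖ ^ 4 := by positivity
  have h2 : 0 ≤ ‖a.2.1‖ ^ 6 := by positivity
  have k1 : a.1 = 0 := by simpa using (by linarith : ‖a.1‖ ^ 4 = 0)
  have k2 : a.2.1 = 0 := by simpa using (by linarith : ‖a.2.1‖ ^ 6 = 0)
  refine k (Prod.ext k1 (Prod.ext k2 ?_))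
  simpa [k1, k2, hn] using h

theorem scl_star (n : ℕ) (s : ℝ) (a : ℂ × ℂ × ℂ) : scl n s (star a) = star (scl n s a) := by
  simp only [scl, Prod.star_def, star_smul, star_trivial]

theorem toY_star (n : ℕ) (a : ℂ × ℂ × ℂ) : toY n (star a) = star (toY n a) := by
  simp [toY, scl_star]

theorem toB_star (n : ℕ) (a : ℂ × ℂ × ℂ) : toB n (star a) = star (toB n a) := by
  simp [toB, scl_star]

theorem scl_mul (n : ℕ) (s : ℝ) (u a : ℂ × ℂ × ℂ) : scl n s (u * a) = u * scl n s a := by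
  simp only [scl, Prod.mul_def, mul_smul_comm]

theorem toY_mul (n : ℕ) {u : ℂ × ℂ × ℂ} (h1 : ‖u.1‖ = 1) (h2 : ‖u.2.1‖ = 1) (a : ℂ × ℂ × ℂ) :
    toY n (u * a) = u * toY n a := by
  simp [toY, scl_mul, h1, h2]

theorem toB_mul (n : ℕ) {u : ℂ × ℂ × ℂ} (h1 : ‖u.1‖ = 1) (h2 : ‖u.2.1‖ = 1) (h3 : ‖u.2.2‖ = 1)
    (a : ℂ × ℂ × ℂ) : toB n (u * a) = u * toB n a := by
  simp [toB, scl_mul, h1, h2, h3]

/-- The two models of the link are diffeomorphic. -/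
theorem briY {n : ℕ} (hn : n ≠ 0) {A B : Set (ℂ × ℂ × ℂ)}
    (hA : ∀ a, a ∈ A ↔ a.1 ^ 2 + a.2.1 ^ 3 + a.2.2 ^ n = 0 ∧
      ‖a.1‖ ^ 2 + ‖a.2.1‖ ^ 2 + ‖a.2.2‖ ^ 2 = 1)
    (hB : ∀ a, a ∈ B ↔ a.1 ^ 2 + a.2.1 ^ 3 + a.2.2 ^ n = 0 ∧ ‖a.1‖ ^ 4 + ‖a.2.1‖ ^ 6 = 1) :
    ContDiffOn ℝ ∞ (toY n) A ∧ ContDiffOn ℝ ∞ (toB n) B ∧ MapsTo (toY n) A B ∧
      MapsTo (toB n) B A ∧ InvOn (toB n) (toY n) A B := by
  have k1 : ∀ a ∈ A, a ≠ 0 := fun a ha e => by simpa [e] using ((hA a).1 ha).2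
  have k2 : ∀ a ∈ B, a ≠ 0 := fun a ha e => by simpa [e] using ((hB a).1 ha).2
  have k3 : ∀ a ∈ A, ‖a.1‖ ^ 4 + ‖a.2.1‖ ^ 6 ≠ 0 := fun a ha => briY_rho hn ((hA a).1 ha).1 (k1 a ha)
  refine ⟨(toY_contDiffOn n).mono k3, (toB_contDiffOn hn).mono k2,
    fun a ha => (hB _).2 ⟨?_, toY_rho n (k3 a ha)⟩, fun a ha => (hA _).2 ⟨?_, toB_norm hn (k2 a ha)⟩,
    fun a ha => ?_, fun a ha => ?_⟩
  · rw [toY, scl_eq hn, ((hA a).1 ha).1, smul_zero]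
  · rw [toB, scl_eq hn, ((hB a).1 ha).1, smul_zero]
  · rw [toY, toB_scl hn _ (k1 a ha), toB_self hn ((hA a).1 ha).2]
  · rw [toB, toY_scl n _ (((hB a).1 ha).2.trans_ne one_ne_zero), toY_self n ((hB a).1 ha).2]

end Pool.Agent.Lib.MP_b2e238_gt
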