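import Pool.Agent.Lib.MP_b2e238_gt.C.Defs
import Pool.Agent.Lib.MP_b2e238_gt.B.BriY

/-! The working model of the Brieskorn spheres, its coframe, charts and monomial maps. -/

open scoped ContDiff Topology
open Set Metric

noncomputable section

namespace Pool.Agent.Lib.MP_b2e238_gt

/-- The link of `x² + y³ + zⁿ` cut out by the homogeneous gauge `|x|⁴ + |y|⁶ = 1`. -/
def Yn (n : ℕ) : Set C3 :=
  {a | a.1 ^ 2 + a.2.1 ^ 3 + a.2.2 ^ n = 0 ∧ ‖a.1‖ ^ 4 + ‖a.2.1‖ ^ 6 = 1}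

/-- `Yn n × S¹` without the torus over the orbit `z = 0`; `YO 1` is the trefoil exterior times a
circle. -/
def YO (n : ℕ) : Set (C3 × ℂ) := {a | a.1 ∈ Yn n ∧ a.2 ∈ S1 ∧ a.1.2.2 ≠ 0}

/-- The circle action. -/
def hY (n : ℕ) (τ : ℂ) (a : C3) : C3 := (τ ^ (3 * n) * a.1, τ ^ (2 * n) * a.2.1, τ ^ 6 * a.2.2)

/-- The monomial maps: power `κ` of `‖z‖`, action by `u ^ i₁ T ^ i₂` on `(x, y)`, new phases
`u ^ e₁ T ^ e₂` and `u ^ k T ^ l`, where `u` is the phase of `z`. -/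
def Jm (κ : ℝ) (i₁ i₂ e₁ e₂ k l : ℤ) (a : C3 × ℂ) : C3 × ℂ :=
  (((ph a.1.2.2 ^ i₁ * a.2 ^ i₂) ^ 3 * a.1.1, (ph a.1.2.2 ^ i₁ * a.2 ^ i₂) ^ 2 * a.1.2.1,
    ((‖a.1.2.2‖ ^ κ : ℝ) : ℂ) * (ph a.1.2.2 ^ e₁ * a.2 ^ e₂)), ph a.1.2.2 ^ k * a.2 ^ l)

/-- The weighted Euler field. -/
def eul (n : ℕ) (a : C3) : C3 := (3 * n * a.1, 2 * n * a.2.1, 6 * a.2.2)

/-- The gradient of `x² + y³ + zⁿ`. -/
def grd (n : ℕ) (a : C3) : C3 := (2 * a.1, 3 * a.2.1 ^ 2, n * a.2.2 ^ (n - 1))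

/-- The cross product. -/
def crs (a b : C3) : C3 :=
  (a.2.1 * b.2.2 - a.2.2 * b.2.1, a.2.2 * b.1 - a.1 * b.2.2, a.1 * b.2.1 - a.2.1 * b.1)

/-- The bilinear pairing with `v`. -/
def dotL (v : C3) : C3 →L[ℝ] ℂ :=
  ContinuousLinearMap.mul ℝ ℂ v.1 ∘L ContinuousLinearMap.fst ℝ ℂ (ℂ × ℂ) +
    (ContinuousLinearMap.mul ℝ ℂ v.2.1 ∘L ContinuousLinearMap.fst ℝ ℂ ℂ +
      ContinuousLinearMap.mul ℝ ℂ v.2.2 ∘L ContinuousLinearMap.snd ℝ ℂ ℂ) ∘L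
        ContinuousLinearMap.snd ℝ ℂ (ℂ × ℂ)

/-- The global coframe: `det (E, W, conj ∇f)` and `Im ⟨W, E⟩`. -/
def om (n : ℕ) (a : C3) : C3 →L[ℝ] E3 :=
  (dotL (crs (star (grd n a)) (eul n a))).prod (Complex.imCLM ∘L dotL (star (eul n a)))

/-- The principal square root. -/
def sq (z : ℂ) : ℂ := z ^ (2⁻¹ : ℂ)

/-- The chart at the orbit `z = 0`; `u = (m, w)` with `‖m‖ = 1`. -/
def cO (n : ℕ) (u : ℂ × ℂ) : C3 :=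
  toY n (u.1 ^ 3 * sq (1 - u.2 ^ n / u.1 ^ 6), -u.1 ^ 2, u.2)

/-- The weight `n` coordinate near the orbit `z = 0`. -/
def mO (n : ℕ) (a : C3) : ℂ := -a.1 / (a.2.1 * sq (1 + a.2.2 ^ n / a.2.1 ^ 3))

/-- The inverse of `cO`. -/
def cO' (n : ℕ) (a : C3) : ℂ × ℂ := (ph (mO n a), a.2.2 / ((‖mO n a‖ ^ (6 / n : ℝ) : ℝ) : ℂ))

end Pool.Agent.Lib.MP_b2e238_gt
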