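import Pool.Agent.Lib.MP_b2e238_gt.B.PiD
import Pool.Agent.Lib.MP_b2e238_gt.K.Emb

/-! The chart at the fibre of order three. -/

open scoped ContDiff Topology
open Set Metric

noncomputable section

namespace Pool.Agent.Lib.MP_b2e238_gt

variable {c T : ℂ}

theorem bf3_q {θ y : ℂ} (hθ : θ ∈ S1) (hy : ‖y‖ < 1 / 2) : 1 + y ^ 3 / θ ^ 2 ≠ 0 := fun e => by
  have k : ‖y ^ 3 / θ ^ 2‖ < 1 / 2 := by
    rw [norm_div, norm_pow, norm_pow, mem_S1.1 hθ, one_pow, div_one]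
    have := pow_lt_pow_left₀ hy (norm_nonneg y) three_ne_zero
    linarith [show (1 / 2 : ℝ) ^ 3 < 1 / 2 by norm_num]
  exact (co_re k).ne' (congrArg Complex.re e)

theorem bf3_eq (θ y T : ℂ) : ∃ r : ℝ, 0 < r ∧ F3 (θ, y, T) =
    ((r ^ 3 * (-θ / (1 + y ^ 3 / θ ^ 2)), r ^ 2 * (-y / (1 + y ^ 3 / θ ^ 2)),
      r ^ 6 * (-θ ^ 2 / (1 + y ^ 3 / θ ^ 2) ^ 3)), T) :=
  ⟨_, Real.exp_pos _, by
    simp only [F3, toY, scl, Complex.real_smul, Nat.cast_one, div_one, ← Complex.ofReal_pow,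
      ← Real.exp_nat_mul, Nat.cast_ofNat]
    rfl⟩

theorem bf3_ne {θ y : ℂ} (hθ : θ ∈ S1) (hy : ‖y‖ < 1 / 2) (T : ℂ) :
    (F3 (θ, y, T)).1.1 ≠ 0 ∧ ((F3 (θ, y, T)).1.2.1 ≠ 0 ↔ y ≠ 0) ∧ (F3 (θ, y, T)).1.2.2 ≠ 0 := by
  obtain ⟨r, r0, e⟩ := bf3_eq θ y T
  have q := bf3_q hθ hy
  have t := S1_ne hθ
  rw [e]
  simp [r0.ne', q, t]

theorem bf3_yo {θ y : ℂ} (hθ : θ ∈ S1) (hy : ‖y‖ < 1 / 2) (hT : T ∈ S1) : F3 (θ, y, T) ∈ YO 1 := by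
  have q := bf3_q hθ hy
  have t := S1_ne hθ
  refine ⟨⟨?_, toY_rho 1 (piD_rho (div_ne_zero (neg_ne_zero.2 t) q))⟩, hT, (bf3_ne hθ hy T).2.2⟩
  simp only [F3, toY]
  rw [scl_eq one_ne_zero]
  refine smul_eq_zero.2 (Or.inr ?_)
  obtain ⟨w, hw⟩ : ∃ w, w = 1 + y ^ 3 / θ ^ 2 := ⟨_, rfl⟩
  rw [← hw] at q ⊢
  have k : θ ^ 2 * w = θ ^ 2 + y ^ 3 := by rw [hw]; field_simp
  simp only
  field_simp
  linear_combination k

theorem bf3_at {θ y : ℂ} (hθ : θ ∈ S1) (hy : ‖y‖ < 1 / 2) (T : ℂ) : ContDiffAt ℝ ∞ F3 (θ, y, T) := by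
  have t := S1_ne hθ
  have a : ContDiffAt ℝ ∞ (fun u : C3 => u.1) (θ, y, T) := contDiffAt_fst
  have b : ContDiffAt ℝ ∞ (fun u : C3 => u.2.1) (θ, y, T) := contDiffAt_snd.fst
  have q : ContDiffAt ℝ ∞ (fun u : C3 => (1 + u.2.1 ^ 3 / u.1 ^ 2)⁻¹) (θ, y, T) :=
    (contDiffAt_const.add ((b.pow 3).mul ((a.pow 2).inv (pow_ne_zero 2 t)))).inv (bf3_q hθ hy)
  have o : IsOpen {a : C3 | ‖a.1‖ ^ 4 + ‖a.2.1‖ ^ 6 ≠ 0} :=
    isOpen_ne_fun (by fun_prop) continuous_const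
  refine ContDiffAt.prodMk (ContDiffAt.comp (g := toY 1) (f := fun u : C3 =>
    (-u.1 / (1 + u.2.1 ^ 3 / u.1 ^ 2), -u.2.1 / (1 + u.2.1 ^ 3 / u.1 ^ 2),
      -u.1 ^ 2 / (1 + u.2.1 ^ 3 / u.1 ^ 2) ^ 3)) (θ, y, T)
    ((toY_contDiffOn 1).contDiffAt (o.mem_nhds
      (piD_rho (div_ne_zero (neg_ne_zero.2 t) (bf3_q hθ hy))))) ?_) contDiffAt_snd.snd
  refine (a.neg.mul q).prodMk ((b.neg.mul q).prodMk ?_)
  exact ((a.pow 2).neg.mul (q.pow 3)).congr_of_eventuallyEq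
    (.of_forall fun u => by simp only [div_eq_mul_inv, inv_pow])

theorem f3_emb : Emb (S1 ×ˢ ball 0 (1 / 2) ×ˢ S1) (YO 1) F3 := by
  refine emb_of_left (P := ℝ × E3) (mf_circle.prod ((mf_open isOpen_ball).prod mf_circle))
    (mf_YO one_ne_zero)
    (fun u h => (bf3_at h.1 (mem_ball_zero_iff.1 h.2.1) _).contDiffWithinAt)
    (fun u h => bf3_yo h.1 (mem_ball_zero_iff.1 h.2.1) h.2.2)
    (χ := fun a => (ph (a.1.1 ^ 3 / a.1.2.2), a.1.2.1 * a.1.1 ^ 2 / a.1.2.2 /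
      ((‖a.1.1 ^ 3 / a.1.2.2‖ ^ (2 / 3 : ℝ) : ℝ) : ℂ), a.2)) ?_ ?_
  · rintro _ ⟨u, h, rfl⟩
    obtain ⟨x, -, z⟩ := bf3_ne h.1 (mem_ball_zero_iff.1 h.2.1) u.2.2
    have i : ContDiffAt ℝ ∞ (fun a : C3 × ℂ => (a.1.2.2)⁻¹) (F3 u) :=
      (contDiffAt_fst.snd.snd).inv z
    have k : ContDiffAt ℝ ∞ (fun a : C3 × ℂ => a.1.1 ^ 3 / a.1.2.2) (F3 u) :=
      (contDiffAt_fst.fst.pow 3).mul i
    have n : (F3 u).1.1 ^ 3 / (F3 u).1.2.2 ≠ 0 := div_ne_zero (pow_ne_zero 3 x) z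
    refine ContDiffAt.contDiffWithinAt ((ph_at k n).prodMk (ContDiffAt.prodMk ?_ contDiffAt_snd))
    exact ((contDiffAt_fst.snd.fst.mul (contDiffAt_fst.fst.pow 2)).mul i).mul
      ((npow_at k n _).inv (by
        exact_mod_cast (Real.rpow_pos_of_pos (norm_pos_iff.2 n) _).ne'))
  · rintro ⟨θ, y, T⟩ h
    obtain ⟨r, r0, e⟩ := bf3_eq θ y T
    have q := bf3_q h.1 (mem_ball_zero_iff.1 h.2.1)
    have t : θ ≠ 0 := S1_ne h.1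
    have t1 : ‖θ‖ = 1 := mem_S1.1 h.1
    have r1 : (r : ℂ) ≠ 0 := by exact_mod_cast r0.ne'
    rw [e]
    generalize 1 + y ^ 3 / θ ^ 2 = w at q
    have k : ((r : ℂ) ^ 3 * (-θ / w)) ^ 3 / (r ^ 6 * (-θ ^ 2 / w ^ 3)) = (r ^ 3 : ℝ) * θ := by
      push_cast
      field_simp
    have m : ‖((r ^ 3 : ℝ) : ℂ) * θ‖ ^ (2 / 3 : ℝ) = r ^ 2 := by
      rw [norm_mul, t1, mul_one, Complex.norm_of_nonneg (by positivity), ← Real.rpow_natCast,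
        ← Real.rpow_mul r0.le, ← Real.rpow_natCast]
      norm_num
    simp only [k, m, ph_pos_mul (pow_pos r0 3) t1]
    congr 2
    push_cast
    field_simp

theorem f3_yr {θ y : ℂ} (hθ : θ ∈ S1) (hy : ‖y‖ < 1 / 2) (hT : T ∈ S1) :
    F3 (θ, y, T) ∈ YR ↔ y ≠ 0 :=
  ⟨fun h => (bf3_ne hθ hy T).2.1.1 h.2.2,
    fun h => ⟨bf3_yo hθ hy hT, (bf3_ne hθ hy T).1, (bf3_ne hθ hy T).2.1.2 h⟩⟩

theorem pi_left (i : ℕ) {ρ : ℝ} {e : ℂ} (h0 : 0 < ρ) (h1 : ρ < 1 / 2) (he : e ∈ S1) (hc : c ∈ S1) :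
    PiE i ((ρ ^ 3 : ℝ) * e, c, T) = F3 (c ^ 3 / e ^ 2, ρ * c ^ 2 / e, T / e) := by
  have e0 := S1_ne he
  have c0 := S1_ne hc
  have r1 : (ρ : ℂ) ≠ 0 := by exact_mod_cast h0.ne'
  have n : ‖((ρ ^ 3 : ℝ) : ℂ) * e‖ ^ 2 ≤ 1 / 9 := by
    rw [norm_mul, mem_S1.1 he, mul_one, Complex.norm_of_nonneg (by positivity), ← pow_mul]
    have := pow_lt_pow_left₀ h1 h0.le (n := 3 * 2) (by norm_num)
    linarith [show (1 / 2 : ℝ) ^ (3 * 2) < 1 / 9 by norm_num]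
  have z := piD_zero (by norm_num : (4 : ℝ) < 9) (n.trans (by norm_num))
  have l : lam ((ρ ^ 3 : ℝ) * e) = 1 := by
    rw [lam, z, piD_zero (by norm_num : (1 / 9 : ℝ) < 1 / 4) n]
    simp
  have p := ph_pos_mul (pow_pos h0 3) (mem_S1.1 he)
  have o : ph 1 = 1 := by simp [ph]
  have g : gA ((ρ ^ 3 : ℝ) * e) = 1 / e := by
    rw [gA, l, z, p]
    simp [sq, o]
  have y : ‖(ρ : ℂ) * c ^ 2 / e‖ < 1 / 2 := by
    rw [norm_div, norm_mul, norm_pow, mem_S1.1 he, mem_S1.1 hc, Complex.norm_of_nonneg h0.le]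
    simpa using h1
  have t : c ^ 3 / e ^ 2 ∈ S1 := mem_S1.2 (by
    rw [norm_div, norm_pow, norm_pow, mem_S1.1 he, mem_S1.1 hc]; norm_num)
  have q := bf3_q t y
  have w : 1 + (ρ * c ^ 2 / e) ^ 3 / (c ^ 3 / e ^ 2) ^ 2 = 1 + (ρ ^ 3 : ℝ) * e := by
    push_cast
    field_simp
  refine Prod.ext ?_ ?_
  · simp only [PiE, sec, F3]
    rw [← toY_scl 1 (Real.log ρ) (piD_rho (a := (-(c ^ 3 / e ^ 2) / _, _, _))
      (div_ne_zero (neg_ne_zero.2 (S1_ne t)) q)), g]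
    rw [w] at q ⊢
    have x : ∀ k : ℕ, Real.exp (k * Real.log ρ) = ρ ^ k := fun k => by
      rw [Real.exp_nat_mul, Real.exp_log h0]
    have a3 := x 3
    have a2 := x 2
    have a6 := x 6
    push_cast at a3 a2 a6
    simp only [scl, Nat.cast_one, div_one, a3, a2, a6, Complex.real_smul]
    generalize 1 + ((ρ ^ 3 : ℝ) : ℂ) * e = v at q
    push_cast
    congr 1
    refine Prod.ext ?_ (Prod.ext ?_ ?_) <;> simp only <;> field_simp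
  · simp only [PiE, F3, gB, l, o, one_zpow, p]
    rw [mul_one_div]

end Pool.Agent.Lib.MP_b2e238_gt
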