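import Pool.Agent.Lib.MP_b2e238_gt.B.CO
import Pool.Agent.Lib.MP_b2e238_gt.B.Lev
import Pool.Agent.Lib.MP_b2e238_gt.K.Par
import Pool.Agent.Lib.MP_b2e238_gt.TL.Emb

/-! Monomial collars of the trefoil exterior times a circle and their fillings. -/

open scoped ContDiff Topology
open Set Metric

noncomputable section

namespace Pool.Agent.Lib.MP_b2e238_gt

/-- The monomial with the exponents `α`. -/
def mon (α : ℤ × ℤ × ℤ) (u : C3) : ℂ := u.1 ^ α.1 * u.2.1 ^ α.2.1 * u.2.2 ^ α.2.2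

/-- The collar whose angles `(m, w / ‖w‖, T)` have the exponents `α`, `β`, `γ`. -/
def clM (α β γ : ℤ × ℤ × ℤ) (u : ℝ × C3) : C3 × ℂ :=
  (cO 1 (mon α u.2, (u.1 : ℂ) * mon β u.2), mon γ u.2)

/-- The embedding of the exterior in `Bri n × S¹`. -/
def jM (n : ℕ) (i₁ i₂ e₁ e₂ k l : ℤ) (a : C3 × ℂ) : C3 × ℂ :=
  Prod.map (toB n) id (Jm (n : ℝ)⁻¹ i₁ i₂ e₁ e₂ k l a)

theorem mon_norm (α : ℤ × ℤ × ℤ) {u : C3} (h : u ∈ S1 ×ˢ S1 ×ˢ S1) : ‖mon α u‖ = 1 := by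
  simp [mon, norm_zpow, mem_S1.1 h.1, mem_S1.1 h.2.1, mem_S1.1 h.2.2]

theorem mon_zmul (α β : ℤ × ℤ × ℤ) (i j : ℤ) {u : C3} (h : u ∈ S1 ×ˢ S1 ×ˢ S1) :
    mon α u ^ i * mon β u ^ j = mon (i • α + j • β) u := by
  have a := S1_ne h.1
  have b := S1_ne h.2.1
  have c := S1_ne h.2.2
  simp only [mon, mul_zpow, ← zpow_mul, Prod.fst_add, Prod.snd_add, Prod.smul_fst, Prod.smul_snd,
    smul_eq_mul, zpow_add₀ a, zpow_add₀ b, zpow_add₀ c, mul_comm i, mul_comm j]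
  ring

theorem mon_add (α β : ℤ × ℤ × ℤ) {u : C3} (h : u ∈ S1 ×ˢ S1 ×ˢ S1) :
    mon α u * mon β u = mon (α + β) u := by simpa using mon_zmul α β 1 1 h

theorem mon_mon3 (α β γ δ : ℤ × ℤ × ℤ) {u : C3} (h : u ∈ S1 ×ˢ S1 ×ˢ S1) :
    mon δ (mon α u, mon β u, mon γ u) = mon (δ.1 • α + δ.2.1 • β + δ.2.2 • γ) u := by
  have := mon_zmul (δ.1 • α + δ.2.1 • β) γ 1 δ.2.2 h
  rw [one_smul, zpow_one] at this
  rw [← this, ← mon_zmul _ _ _ _ h]; rfl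

theorem mon_sub (α : ℤ × ℤ × ℤ) (m m' : ℤ) {a b q : ℂ} (hq : q ∈ S1) :
    mon α (a * q ^ m, b * q ^ m', q) =
      a ^ α.1 * b ^ α.2.1 * q ^ (m * α.1 + m' * α.2.1 + α.2.2) := by
  have c := S1_ne hq
  simp only [mon, mul_zpow, ← zpow_mul, zpow_add₀ c]
  ring

theorem mon_at {P : Type} [NormedAddCommGroup P] [NormedSpace ℝ P] {f : P → C3} {p : P}
    (α : ℤ × ℤ × ℤ) (hf : ContDiffAt ℝ ∞ f p) (h : f p ∈ S1 ×ˢ S1 ×ˢ S1) :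
    ContDiffAt ℝ ∞ (fun q => mon α (f q)) p :=
  ((zpow_at hf.fst (S1_ne h.1) _).mul (zpow_at hf.snd.fst (S1_ne h.2.1) _)).mul
    (zpow_at hf.snd.snd (S1_ne h.2.2) _)

theorem jM_dif {n : ℕ} (hn : n ≠ 0) {i₁ i₂ e₁ e₂ k l d : ℤ} (h2 : 6 * i₁ + 1 = n * e₁)
    (h3 : 6 * i₂ = n * e₂) (h4 : e₁ * l - e₂ * k = d) (h5 : d * d = 1) :
    ∃ j', Dif (YO 1) (MM n \ OO n) (jM n i₁ i₂ e₁ e₂ k l) j' := by
  have h0 : (n : ℝ) ≠ 0 := by exact_mod_cast hn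
  exact ⟨_, (Jm_dif (n := 1) (n' := n) (inv_ne_zero h0) (by simp [h0]) (by simpa using h2) h3 h4
    h5).trans (yo_mm hn)⟩

theorem jM_clM {n : ℕ} (hn : n ≠ 0) {i₁ i₂ e₁ e₂ : ℤ} (k l : ℤ) (h2 : 6 * i₁ + 1 = n * e₁)
    (h3 : 6 * i₂ = n * e₂) (α β γ : ℤ × ℤ × ℤ) {ρ : ℝ} (hρ : 0 < ρ) {u : C3}
    (h : u ∈ S1 ×ˢ S1 ×ˢ S1) : jM n i₁ i₂ e₁ e₂ k l (clM α β γ (ρ, u)) =
      (toB n (cO n (mon (i₁ • β + i₂ • γ + α) u,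
        ((ρ ^ (n : ℝ)⁻¹ : ℝ) : ℂ) * mon (e₁ • β + e₂ • γ) u)), mon (k • β + l • γ) u) := by
  have h0 : (n : ℝ) ≠ 0 := by exact_mod_cast hn
  have hw : (ρ : ℂ) * mon β u ≠ 0 := mul_ne_zero (by exact_mod_cast hρ.ne')
    (S1_ne (mem_S1.2 (mon_norm β h)))
  have hN : ‖(ρ : ℂ) * mon β u‖ = ρ := by
    rw [norm_mul, mon_norm β h, mul_one, Complex.norm_real, Real.norm_eq_abs, abs_of_pos hρ]
  simp only [jM, clM]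
  rw [cO_Jm (n := 1) one_ne_zero hn k l (by simp [h0]) (by simpa using h2) h3
    (mem_S1.2 (mon_norm α h)) hw (mem_S1.2 (mon_norm γ h)), ph_pos_mul hρ (mon_norm β h), hN,
    mon_zmul _ _ _ _ h, mon_zmul _ _ _ _ h, mon_zmul _ _ _ _ h, mon_add _ _ h]
  rfl

/-- The chart `cO n × id` as an open embedding in `Bri n × S¹`. -/
theorem fill_chart {n : ℕ} (hn : n ≠ 0) : ∃ G N,
    Dif ({u : ℂ × ℂ | u.1 ∈ S1 ∧ ‖u.2‖ ^ n < 1 / 2} ×ˢ S1) N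
      (fun u => (toB n (cO n u.1), u.2)) G ∧ Opn N (MM n) ∧ OO n ⊆ N := by
  have d := ((cO_dif hn).prod (Dif.refl S1))
  have o : Opn ({a | a ∈ Yn n ∧ ‖a.2.2‖ ^ n < ‖a.2.1‖ ^ 3 / 2} ×ˢ S1) (Yn n ×ˢ S1) :=
    (cO_opn n).prod (Opn.refl S1)
  have e := (bri_yn hn).symm.prod (Dif.refl S1)
  refine ⟨_, _, d.trans (e.mono o.1), e.opn o, fun a ha => ⟨(toY n a.1, a.2), ⟨⟨?_, ?_⟩, ha.1.2⟩, ?_⟩⟩
  · exact (bri_yn hn).mF ha.1.1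
  · have m := (bri_yn hn).mF ha.1.1
    have z : (toY n a.1).2.2 = 0 := by simp [toY, scl, ha.2]
    have y : (toY n a.1).2.1 ≠ 0 := fun y => by
      have h1 := m.1
      have h2 := m.2
      rw [z, y, zero_pow hn] at h1
      have x : (toY n a.1).1 = 0 := by simpa using h1
      simp [x, y] at h2
    show ‖(toY n a.1).2.2‖ ^ n < ‖(toY n a.1).2.1‖ ^ 3 / 2
    rw [z, norm_zero, zero_pow hn]
    positivity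
  · exact Prod.ext ((bri_yn hn).gf _ ha.1.1) rfl

/-- `w` or its conjugate. -/
def sg (σ : ℤ) (w : ℂ) : ℂ := if σ = 1 then w else star w

theorem sg_sg (σ : ℤ) (w : ℂ) : sg σ (sg σ w) = w := by unfold sg; split_ifs <;> simp
theorem sg_norm (σ : ℤ) (w : ℂ) : ‖sg σ w‖ = ‖w‖ := by unfold sg; split_ifs <;> simp
theorem sg_zero (σ : ℤ) : sg σ 0 = 0 := by unfold sg; split_ifs <;> simp
theorem sg_smooth (σ : ℤ) : ContDiff ℝ ∞ (sg σ) := by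
  unfold sg; split_ifs
  exacts [contDiff_id, Complex.conjCLE.contDiff]
theorem sg_pol {σ : ℤ} (h : σ * σ = 1) (r : ℝ) {q : ℂ} (hq : q ∈ S1) :
    sg σ (r * q) = r * q ^ σ := by
  rcases Int.eq_one_or_neg_one_of_mul_eq_one h with rfl | rfl
  · simp [sg]
  · simp [sg, Complex.inv_eq_conj (mem_S1.1 hq)]

theorem fill_lin {μ₁ μ₂ ω₁ ω₂ θ₁ θ₂ d : ℤ} (σ : ℤ) (n : ℕ) (hn : n ≠ 0)
    (h4 : μ₁ * θ₂ - μ₂ * θ₁ = d) (h5 : d * d = 1) : ∃ G,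
    Dif (S1 ×ˢ S1 ×ˢ ball (0 : ℂ) ((1 / 2 : ℝ) ^ (n : ℝ)⁻¹))
      ({u : ℂ × ℂ | u.1 ∈ S1 ∧ ‖u.2‖ ^ n < 1 / 2} ×ˢ S1)
      (fun u => ((u.1 ^ μ₁ * u.2.1 ^ μ₂, u.1 ^ ω₁ * u.2.1 ^ ω₂ * sg σ u.2.2),
        u.1 ^ θ₁ * u.2.1 ^ θ₂)) G := by
  have hb : ∀ w : ℂ, w ∈ ball (0 : ℂ) ((1 / 2 : ℝ) ^ (n : ℝ)⁻¹) ↔ ‖w‖ ^ n < 1 / 2 := fun w => by
    rw [mem_ball_zero_iff, Real.lt_rpow_inv_iff_of_pos (norm_nonneg _) (by norm_num)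
      (by exact_mod_cast Nat.pos_of_ne_zero hn), Real.rpow_natCast]
  refine ⟨fun v => (v.1.1 ^ (d * θ₂) * v.2 ^ (-d * μ₂), v.1.1 ^ (-d * θ₁) * v.2 ^ (d * μ₁),
    sg σ (v.1.1 ^ (d * (θ₁ * ω₂ - θ₂ * ω₁)) * v.2 ^ (d * (μ₂ * ω₁ - μ₁ * ω₂)) * v.1.2)),
    fun u h => ?_, fun u h => ?_, fun u h => ?_, fun u h => ?_, fun u h => ?_, fun u h => ?_⟩
  · have m : ∀ i j : ℤ, ContDiffAt ℝ ∞ (fun b : C3 => b.1 ^ i * b.2.1 ^ j) u := fun i j =>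
      (zpow_at contDiffAt_fst (S1_ne h.1) i).mul (zpow_at contDiffAt_snd.fst (S1_ne h.2.1) j)
    exact (((m _ _).prodMk ((m _ _).mul ((sg_smooth σ).contDiffAt.comp u
      contDiffAt_snd.snd))).prodMk (m _ _)).contDiffWithinAt
  · have m : ∀ i j : ℤ, ContDiffAt ℝ ∞ (fun b : (ℂ × ℂ) × ℂ => b.1.1 ^ i * b.2 ^ j) u := fun i j =>
      (zpow_at contDiffAt_fst.fst (S1_ne h.1.1) i).mul (zpow_at contDiffAt_snd (S1_ne h.2) j)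
    exact ((m _ _).prodMk ((m _ _).prodMk ((sg_smooth σ).contDiffAt.comp u
      ((m _ _).mul contDiffAt_fst.snd)))).contDiffWithinAt
  · have m := norm_mon (mem_S1.1 h.1) (mem_S1.1 h.2.1)
    refine ⟨⟨mem_S1.2 (m _ _), ?_⟩, mem_S1.2 (m _ _)⟩
    show ‖u.1 ^ ω₁ * u.2.1 ^ ω₂ * sg σ u.2.2‖ ^ n < 1 / 2
    rw [norm_mul, m, one_mul, sg_norm]
    exact (hb _).1 h.2.2
  · have m := norm_mon (mem_S1.1 h.1.1) (mem_S1.1 h.2)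
    refine ⟨mem_S1.2 (m _ _), mem_S1.2 (m _ _), (hb _).2 ?_⟩
    simp only [sg_norm]
    rw [norm_mul, m, one_mul]
    exact h.1.2
  · obtain ⟨a, b, w⟩ := u
    have a0 : a ≠ 0 := S1_ne h.1
    have b0 : b ≠ 0 := S1_ne h.2.1
    simp only [mon_mon a0 b0]
    have k := mon_mon a0 b0 (μ₁ * (d * (θ₁ * ω₂ - θ₂ * ω₁)) + θ₁ * (d * (μ₂ * ω₁ - μ₁ * ω₂)))
      (μ₂ * (d * (θ₁ * ω₂ - θ₂ * ω₁)) + θ₂ * (d * (μ₂ * ω₁ - μ₁ * ω₂))) ω₁ ω₂ 1 1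
    simp only [zpow_one, mul_one] at k
    rw [← mul_assoc _ _ (sg σ w), k, show μ₁ * (d * θ₂) + θ₁ * (-d * μ₂) = 1 by linear_combination d * h4 + h5,
      show μ₂ * (d * θ₂) + θ₂ * (-d * μ₂) = 0 by ring,
      show μ₁ * (-d * θ₁) + θ₁ * (d * μ₁) = 0 by ring,
      show μ₂ * (-d * θ₁) + θ₂ * (d * μ₁) = 1 by linear_combination d * h4 + h5,
      show μ₁ * (d * (θ₁ * ω₂ - θ₂ * ω₁)) + θ₁ * (d * (μ₂ * ω₁ - μ₁ * ω₂)) + ω₁ = 0 by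
        linear_combination (-d * ω₁) * h4 - ω₁ * h5,
      show μ₂ * (d * (θ₁ * ω₂ - θ₂ * ω₁)) + θ₂ * (d * (μ₂ * ω₁ - μ₁ * ω₂)) + ω₂ = 0 by
        linear_combination (-d * ω₂) * h4 - ω₂ * h5]
    simp [sg_sg]
  · obtain ⟨⟨a, w⟩, b⟩ := u
    have a0 : a ≠ 0 := S1_ne h.1.1
    have b0 : b ≠ 0 := S1_ne h.2
    simp only [mon_mon a0 b0, sg_sg]
    have k := mon_mon a0 b0 (d * θ₂ * ω₁ + -d * θ₁ * ω₂) (-d * μ₂ * ω₁ + d * μ₁ * ω₂)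
      (d * (θ₁ * ω₂ - θ₂ * ω₁)) (d * (μ₂ * ω₁ - μ₁ * ω₂)) 1 1
    simp only [zpow_one, mul_one] at k
    rw [← mul_assoc _ _ w, k, show d * θ₂ * μ₁ + -d * θ₁ * μ₂ = 1 by linear_combination d * h4 + h5,
      show -d * μ₂ * μ₁ + d * μ₁ * μ₂ = 0 by ring, show d * θ₂ * θ₁ + -d * θ₁ * θ₂ = 0 by ring,
      show -d * μ₂ * θ₁ + d * μ₁ * θ₂ = 1 by linear_combination d * h4 + h5,
      show d * θ₂ * ω₁ + -d * θ₁ * ω₂ + d * (θ₁ * ω₂ - θ₂ * ω₁) = 0 by ring,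
      show -d * μ₂ * ω₁ + d * μ₁ * ω₂ + d * (μ₂ * ω₁ - μ₁ * ω₂) = 0 by ring]
    simp

/-- The fillings: `μ`, `ν`, `θ` are the exponents of the angles of the chart `cO n × id`. -/
theorem fill_jM {n : ℕ} (hn : n ≠ 0) {i₁ i₂ e₁ e₂ k l d d' σ m m' : ℤ} {α β γ μ ν θ : ℤ × ℤ × ℤ}
    (h2 : 6 * i₁ + 1 = n * e₁) (h3 : 6 * i₂ = n * e₂) (h4 : e₁ * l - e₂ * k = d) (h5 : d * d = 1)
    (hμ : μ = i₁ • β + i₂ • γ + α) (hν : ν = e₁ • β + e₂ • γ) (hθ : θ = k • β + l • γ)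
    (g1 : m * μ.1 + m' * μ.2.1 + μ.2.2 = 0) (g2 : m * ν.1 + m' * ν.2.1 + ν.2.2 = σ)
    (g3 : m * θ.1 + m' * θ.2.1 + θ.2.2 = 0) (g4 : σ * σ = 1)
    (g5 : μ.1 * θ.2.1 - μ.2.1 * θ.1 = d') (g6 : d' * d' = 1) :
    Fill (YO 1) (clM α β γ) (MM n) (OO n) (jM n i₁ i₂ e₁ e₂ k l) m m' := by
  obtain ⟨G, N, hG, hN, hO⟩ := fill_chart hn
  obtain ⟨L, hL⟩ := fill_lin (ω₁ := ν.1) (ω₂ := ν.2.1) σ n hn g5 g6
  have D := hL.trans hG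
  have p : (0 : ℝ) < (n : ℝ)⁻¹ := inv_pos.2 (by exact_mod_cast Nat.pos_of_ne_zero hn)
  refine ⟨fun a h => h.1, jM_dif hn h2 h3 h4 h5, _, 1 / 2, (n : ℝ)⁻¹, by norm_num, p,
    ⟨D.image.symm ▸ hN, _, D.image.symm ▸ D⟩, ?_, fun a ha b hb q hq ρ hρ => ?_⟩
  · have z : ∀ u : ℂ × ℂ, (toB n (cO n u)).2.2 = 0 ↔ u.2 = 0 := fun u => by
      rw [← cO_z n u]; simp [toB, scl]
    refine Subset.antisymm ?_ fun a ha => ?_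
    · rintro _ ⟨u, hu, rfl⟩
      refine ⟨hN.1 (D.mF ⟨hu.1, hu.2.1, ?_⟩), (z _).2 ?_⟩
      · rw [show u.2.2 = 0 from hu.2.2]
        exact mem_ball_self (by positivity)
      · simp [show u.2.2 = 0 from hu.2.2, sg_zero]
    · have m1 := D.mG (hO ha)
      have e := D.fg a (hO ha)
      refine ⟨_, ⟨m1.1, m1.2.1, ?_⟩, e⟩
      have k1 := ha.2
      rw [← e] at k1
      have k2 := (mul_eq_zero.1 ((z _).1 k1)).resolve_left (mul_ne_zero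
        (zpow_ne_zero _ (S1_ne m1.1)) (zpow_ne_zero _ (S1_ne m1.2.1)))
      rw [mem_singleton_iff, ← norm_eq_zero, ← sg_norm σ, k2, norm_zero]
  · have u : (a * q ^ m, b * q ^ m', q) ∈ S1 ×ˢ S1 ×ˢ S1 :=
      ⟨mem_S1.2 (by simpa using norm_mon (mem_S1.1 ha) (mem_S1.1 hq) 1 m),
        mem_S1.2 (by simpa using norm_mon (mem_S1.1 hb) (mem_S1.1 hq) 1 m'), hq⟩
    rw [jM_clM hn k l h2 h3 α β γ hρ.1 u, ← hμ, ← hν, ← hθ, mon_sub _ _ _ hq, mon_sub _ _ _ hq,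
      mon_sub _ _ _ hq, g1, g2, g3]
    simp only [Function.comp, sg_pol g4 _ hq, zpow_zero, mul_one]
    congr 4
    ring

theorem mon_basis (u : C3) :
    (mon (1, 0, 0) u, mon (0, 1, 0) u, mon (0, 0, 1) u) = u := by simp [mon]

/-- The collar is an open embedding if the exponent matrix is invertible. -/
theorem clM_emb {α β γ α' β' γ' : ℤ × ℤ × ℤ}
    (a1 : α'.1 • α + α'.2.1 • β + α'.2.2 • γ = (1, 0, 0))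
    (a2 : β'.1 • α + β'.2.1 • β + β'.2.2 • γ = (0, 1, 0))
    (a3 : γ'.1 • α + γ'.2.1 • β + γ'.2.2 • γ = (0, 0, 1))
    (b1 : α.1 • α' + α.2.1 • β' + α.2.2 • γ' = (1, 0, 0))
    (b2 : β.1 • α' + β.2.1 • β' + β.2.2 • γ' = (0, 1, 0))
    (b3 : γ.1 • α' + γ.2.1 • β' + γ.2.2 • γ' = (0, 0, 1)) {ε : ℝ} (hε : ε ≤ 1 / 2) :
    Emb (Ioo 0 ε ×ˢ S1 ×ˢ S1 ×ˢ S1) (YO 1) (clM α β γ) := by
  have t : ∀ (δ η ζ : ℤ × ℤ × ℤ) {u : C3}, u ∈ S1 ×ˢ S1 ×ˢ S1 →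
      (mon δ u, mon η u, mon ζ u) ∈ S1 ×ˢ S1 ×ˢ S1 := fun δ η ζ u h =>
    ⟨mem_S1.2 (mon_norm _ h), mem_S1.2 (mon_norm _ h), mem_S1.2 (mon_norm _ h)⟩
  have hN : ∀ {ρ : ℝ} {u : C3}, 0 < ρ → u ∈ S1 ×ˢ S1 ×ˢ S1 → ‖(ρ : ℂ) * mon β u‖ = ρ :=
    fun hρ h => by
      rw [norm_mul, mon_norm β h, mul_one, Complex.norm_real, Real.norm_eq_abs, abs_of_pos hρ]
  have D : Dif (Ioo 0 ε ×ˢ S1 ×ˢ S1 ×ˢ S1)
      (({u : ℂ × ℂ | u.1 ∈ S1 ∧ ‖u.2‖ ^ 1 < 1 / 2} ×ˢ S1) ∩ {v | ‖v.1.2‖ ∈ Ioo 0 ε})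
      (fun u : ℝ × C3 => ((mon α u.2, (u.1 : ℂ) * mon β u.2), mon γ u.2))
      fun v => (‖v.1.2‖, mon α' (v.1.1, ph v.1.2, v.2), mon β' (v.1.1, ph v.1.2, v.2),
        mon γ' (v.1.1, ph v.1.2, v.2)) := by
    refine ⟨fun u h => ?_, fun v h => ?_, fun u h => ?_, fun v h => ?_, fun u h => ?_,
      fun v h => ?_⟩
    · have m := fun δ => mon_at (f := fun u : ℝ × C3 => u.2) δ contDiffAt_snd h.2
      exact (((m _).prodMk ((Complex.ofRealCLM.contDiff.contDiffAt.comp u contDiffAt_fst).mul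
        (m _))).prodMk (m _)).contDiffWithinAt
    · have w : v.1.2 ≠ 0 := norm_pos_iff.1 h.2.1
      have m := fun δ => mon_at (f := fun v : (ℂ × ℂ) × ℂ => (v.1.1, ph v.1.2, v.2)) δ
        (contDiffAt_fst.fst.prodMk ((ph_at contDiffAt_fst.snd w).prodMk contDiffAt_snd))
        ⟨h.1.1.1, mem_S1.2 (ph_norm w), h.1.2⟩
      exact (((contDiffAt_norm ℝ w).comp v contDiffAt_fst.snd).prodMk
        ((m _).prodMk ((m _).prodMk (m _)))).contDiffWithinAt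
    · refine ⟨⟨⟨mem_S1.2 (mon_norm _ h.2), ?_⟩, mem_S1.2 (mon_norm _ h.2)⟩, ?_⟩
      · show ‖(u.1 : ℂ) * mon β u.2‖ ^ 1 < 1 / 2
        rw [hN h.1.1 h.2, pow_one]
        exact h.1.2.trans_le hε
      · show ‖(u.1 : ℂ) * mon β u.2‖ ∈ Ioo 0 ε
        rw [hN h.1.1 h.2]
        exact h.1
    · exact ⟨h.2, t _ _ _ ⟨h.1.1.1, mem_S1.2 (ph_norm (norm_pos_iff.1 h.2.1)), h.1.2⟩⟩
    · simp only [hN h.1.1 h.2, ph_pos_mul h.1.1 (mon_norm β h.2), mon_mon3 _ _ _ _ h.2, a1, a2, a3,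
        mon_basis]
    · have w : v.1.2 ≠ 0 := norm_pos_iff.1 h.2.1
      have m : (v.1.1, ph v.1.2, v.2) ∈ S1 ×ˢ S1 ×ˢ S1 := ⟨h.1.1.1, mem_S1.2 (ph_norm w), h.1.2⟩
      simp only [mon_mon3 _ _ _ _ m, b1, b2, b3]
      simp [mon, ph_mul_norm w]
  have o : IsOpen {v : (ℂ × ℂ) × ℂ | ‖v.1.2‖ ∈ Ioo 0 ε} := isOpen_Ioo.preimage (by fun_prop)
  have e1 := D.emb (opn_iff.2 ⟨_, o, rfl⟩)
  have e2 := ((cO_dif one_ne_zero).prod (Dif.refl S1)).emb ((cO_opn 1).prod (Opn.refl S1))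
  refine (e1.comp e2).down (fun a h => ⟨h.1, h.2.1⟩) fun u h => ?_
  have m := (e1.comp e2).mapsTo h
  refine ⟨m.1, m.2, fun z => ?_⟩
  have k : (u.1 : ℂ) * mon β u.2 = 0 := (cO_z 1 _).1 z
  have := hN h.1.1 h.2
  rw [k, norm_zero] at this
  exact h.1.1.ne this

end Pool.Agent.Lib.MP_b2e238_gt
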