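import Pool.Agent.Lib.MP_b2e238_gt.B.PiD

/-! First-order data of the monomial embeddings in logarithmic coordinates. -/

open scoped ContDiff Topology
open Set Metric

noncomputable section

namespace Pool.Agent.Lib.MP_b2e238_gt

variable {i : ℕ} {d : JD} {η c T : ℂ}

theorem jet_cc (h : η ∈ CC) : η ≠ 0 ∧ 1 + η ≠ 0 := by
  simp only [CC, mem_compl_iff, mem_insert_iff, mem_singleton_iff, not_or] at h
  exact ⟨h.1, fun e => h.2 (by linear_combination e)⟩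

theorem jet_gA (hη : η ∈ CC) (hc : c ∈ S1) : ‖c * gA η‖ = 1 := by
  rw [norm_mul, mem_S1.1 hc, mem_S1.1 (gA_facts.2 hη), one_mul]

theorem jet_gB (k : ℤ) (hη : η ∈ CC) (hT : T ∈ S1) : ‖T * gB k η‖ = 1 := by
  rw [norm_mul, mem_S1.1 hT, mem_S1.1 ((gB_facts k).2 hη), one_mul]

theorem jet_wz (hη : η ∈ CC) (hc : c ∈ S1) : ‖wz η c‖ = 1 := by
  simp only [wz, norm_div, norm_neg, norm_mul (-_ : ℂ), norm_pow, jet_gA hη hc,
    ph_norm (jet_cc hη).1, ph_norm (jet_cc hη).2]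
  norm_num

theorem jet_z (hη : η ∈ CC) (c : ℂ) :
    ∃ r : ℝ, 0 < r ∧ (sec η (c * gA η)).2.2 = r * wz η c := by
  obtain ⟨h0, h1⟩ := jet_cc hη
  have n0 : 0 < ‖η‖ := norm_pos_iff.2 h0
  have n1 : 0 < ‖1 + η‖ := norm_pos_iff.2 h1
  obtain ⟨s, hs⟩ : ∃ s : ℝ, (sec η (c * gA η)).2.2 =
      Real.exp s • (-(c * gA η) ^ 6 * η ^ 2 / (1 + η) ^ 3) := ⟨_, rfl⟩
  refine ⟨Real.exp s * ‖η‖ ^ 2 / ‖1 + η‖ ^ 3, by positivity, ?_⟩
  have m0 : ((‖η‖ : ℝ) : ℂ) ≠ 0 := by exact_mod_cast n0.ne'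
  have m1 : ((‖1 + η‖ : ℝ) : ℂ) ≠ 0 := by exact_mod_cast n1.ne'
  rw [hs, Complex.real_smul, wz, ph, ph, Complex.ofReal_div, Complex.ofReal_mul,
    Complex.ofReal_pow, Complex.ofReal_pow]
  field_simp

theorem jet_ph (hη : η ∈ CC) (hc : c ∈ S1) : ph (sec η (c * gA η)).2.2 = wz η c := by
  obtain ⟨r, r0, e⟩ := jet_z hη c
  rw [e, ph_pos_mul r0 (jet_wz hη hc)]

theorem jet_zne (hη : η ∈ CC) (hc : c ∈ S1) : (sec η (c * gA η)).2.2 ≠ 0 := by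
  obtain ⟨r, r0, e⟩ := jet_z hη c
  rw [e]
  exact mul_ne_zero (by exact_mod_cast r0.ne') (S1_ne (mem_S1.2 (jet_wz hη hc)))

theorem j_snd (hη : η ∈ CC) (hc : c ∈ S1) (hT : T ∈ S1) :
    (d.j (PiE i (η, c, T))).2 = wz η c ^ d.k * (T * gB (4 - i) η) ^ d.l := by
  have _ := hT
  simp only [JD.j, Jm, PiE, jet_ph hη hc]

theorem jet_rho (hη : η ∈ CC) (hc : c ≠ 0) :
    ‖-c ^ 3 * η / (1 + η)‖ ^ 4 + ‖-c ^ 2 * η / (1 + η)‖ ^ 6 ≠ 0 := by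
  obtain ⟨h0, h1⟩ := jet_cc hη
  have : 0 < ‖-c ^ 3 * η / (1 + η)‖ :=
    norm_pos_iff.2 (div_ne_zero (mul_ne_zero (neg_ne_zero.2 (pow_ne_zero _ hc)) h0) h1)
  positivity

theorem jet_yo (hη : η ∈ CC) (hc : c ∈ S1) (hT : T ∈ S1) : PiE i (η, c, T) ∈ YO 1 := by
  obtain ⟨h0, h1⟩ := jet_cc hη
  refine ⟨⟨?_, toY_rho 1 (jet_rho hη (S1_ne (mem_S1.2 (jet_gA hη hc))))⟩,
    mem_S1.2 (jet_gB _ hη hT), jet_zne hη hc⟩
  simp only [PiE, sec, toY]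
  rw [scl_eq one_ne_zero]
  refine smul_eq_zero.2 (Or.inr ?_)
  field_simp
  ring

theorem jet_cone (h : d.OK) (hη : η ∈ CC) (hc : c ∈ S1) (hT : T ∈ S1) :
    (d.j (PiE i (η, c, T))).1.1 ^ 2 + (d.j (PiE i (η, c, T))).1.2.1 ^ 3 +
      (d.j (PiE i (η, c, T))).1.2.2 ^ d.n = 0 := by
  have n0 : (d.n : ℝ) ≠ 0 := by exact_mod_cast h.1
  have k := Jm_maps (n := 1) (n' := d.n) (κ := 1 / d.n) d.k d.l (by field_simp; simp)
    (by exact_mod_cast h.2.1) h.2.2.1 (jet_yo (i := i) hη hc hT)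
  simp only [JD.j, toB]
  rw [scl_eq h.1, k.1.1, smul_zero]

/-- The normal form of the image point. -/
theorem jet_form (hη : η ∈ CC) (hc : c ∈ S1) (T : ℂ) : ∃ r C : ℝ, 0 < r ∧ 0 < C ∧
    (d.j (PiE i (η, c, T))).1 =
      ((r * (wz η c ^ d.i₁ * (T * gB (4 - i) η) ^ d.i₂) * (c * gA η)) ^ 3 * (-η / (1 + η)),
        (r * (wz η c ^ d.i₁ * (T * gB (4 - i) η) ^ d.i₂) * (c * gA η)) ^ 2 * (-η / (1 + η)),
        C * (wz η c ^ d.e₁ * (T * gB (4 - i) η) ^ d.e₂)) := by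
  obtain ⟨s, hs⟩ : ∃ s : ℝ, (d.j (PiE i (η, c, T))).1 =
      scl d.n s (Jm (1 / d.n) d.i₁ d.i₂ d.e₁ d.e₂ d.k d.l (PiE i (η, c, T))).1 := ⟨_, rfl⟩
  obtain ⟨t, h1, h2⟩ : ∃ t : ℝ,
      (sec η (c * gA η)).1 = Real.exp (3 * t) • (-(c * gA η) ^ 3 * η / (1 + η)) ∧
      (sec η (c * gA η)).2.1 = Real.exp (2 * t) • (-(c * gA η) ^ 2 * η / (1 + η)) := ⟨_, rfl, rfl⟩
  have z := norm_pos_iff.2 (jet_zne hη hc)
  refine ⟨Real.exp s * Real.exp t, Real.exp (6 / d.n * s) * ‖(sec η (c * gA η)).2.2‖ ^ (1 / d.n : ℝ),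
    by positivity, by positivity, ?_⟩
  have e3 : ∀ x : ℝ, Real.exp (3 * x) = Real.exp x ^ 3 := fun x => by
    rw [← Real.exp_nat_mul]; norm_num
  have e2 : ∀ x : ℝ, Real.exp (2 * x) = Real.exp x ^ 2 := fun x => by
    rw [← Real.exp_nat_mul]; norm_num
  rw [hs]
  simp only [scl, Jm, PiE, jet_ph hη hc, h1, h2, e3, e2, Complex.real_smul, Complex.ofReal_mul,
    Complex.ofReal_pow]
  refine Prod.ext ?_ (Prod.ext ?_ ?_) <;> simp only <;> ring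

theorem jet_nsq (g : C3) :
    dotL (star g) g = (‖g.1‖ ^ 2 + ‖g.2.1‖ ^ 2 + ‖g.2.2‖ ^ 2 : ℝ) := by
  simp only [dotL_apply, Prod.fst_star, Prod.snd_star, Complex.star_def, Complex.conj_mul']
  push_cast
  ring

theorem jet_ne (hη : η ∈ CC) (hc : c ∈ S1) (hT : T ∈ S1) :
    (d.j (PiE i (η, c, T))).1.1 ≠ 0 ∧ (d.j (PiE i (η, c, T))).1.2.1 ≠ 0 ∧
      (d.j (PiE i (η, c, T))).1.2.2 ≠ 0 := by
  obtain ⟨h0, h1⟩ := jet_cc hη
  obtain ⟨r, C, r0, C0, e⟩ := jet_form (i := i) (d := d) hη hc T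
  have m : ∀ a b : ℤ, wz η c ^ a * (T * gB (4 - i) η) ^ b ≠ 0 := fun a b =>
    S1_ne (mem_S1.2 (norm_mon (jet_wz hη hc) (jet_gB _ hη hT) a b))
  have l : r * (wz η c ^ d.i₁ * (T * gB (4 - i) η) ^ d.i₂) * (c * gA η) ≠ 0 :=
    mul_ne_zero (mul_ne_zero (by exact_mod_cast r0.ne') (m _ _)) (S1_ne (mem_S1.2 (jet_gA hη hc)))
  have q : -η / (1 + η) ≠ 0 := div_ne_zero (neg_ne_zero.2 h0) h1
  rw [e]
  exact ⟨mul_ne_zero (pow_ne_zero _ l) q, mul_ne_zero (pow_ne_zero _ l) q,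
    mul_ne_zero (by exact_mod_cast C0.ne') (m _ _)⟩

theorem j_hz (h : d.OK) (hη : η ∈ CC) (hc : c ∈ S1) (hT : T ∈ S1) :
    hz d.n (d.j (PiE i (η, c, T))).1 ≠ 0 ∧ ph (hz d.n (d.j (PiE i (η, c, T))).1) =
      -(wz η c ^ (d.e₁ - d.i₁) * (T * gB (4 - i) η) ^ (d.e₂ - d.i₂) / (c * gA η)) := by
  obtain ⟨h0, h1⟩ := jet_cc hη
  obtain ⟨r, C, r0, C0, e⟩ := jet_form (i := i) (d := d) hη hc T
  have x := (jet_ne (i := i) (d := d) hη hc hT).1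
  have w1 := jet_wz hη hc
  have t1 := jet_gB (4 - i) hη hT
  have c1 := jet_gA hη hc
  have w0 := S1_ne (mem_S1.2 w1)
  have t0 := S1_ne (mem_S1.2 t1)
  have c0 := S1_ne (mem_S1.2 c1)
  have u : ‖-(wz η c ^ (d.e₁ - d.i₁) * (T * gB (4 - i) η) ^ (d.e₂ - d.i₂) / (c * gA η))‖ = 1 := by
    rw [norm_neg, norm_div, norm_mon w1 t1, c1, div_one]
  generalize (d.j (PiE i (η, c, T))).1 = a at e x ⊢
  have g : 0 < ‖(grd d.n a).1‖ ^ 2 + ‖(grd d.n a).2.1‖ ^ 2 + ‖(grd d.n a).2.2‖ ^ 2 :=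
    briY_ne (grd_ne h.1 fun k => x (by rw [k]; rfl))
  have k : hz d.n a = ((C / r * (‖(grd d.n a).1‖ ^ 2 + ‖(grd d.n a).2.1‖ ^ 2 +
      ‖(grd d.n a).2.2‖ ^ 2) : ℝ) : ℂ) *
      -(wz η c ^ (d.e₁ - d.i₁) * (T * gB (4 - i) η) ^ (d.e₂ - d.i₂) / (c * gA η)) := by
    rw [hz, Complex.ofReal_mul, Complex.ofReal_div, zpow_sub₀ w0, zpow_sub₀ t0]
    generalize (‖(grd d.n a).1‖ ^ 2 + ‖(grd d.n a).2.1‖ ^ 2 + ‖(grd d.n a).2.2‖ ^ 2 : ℝ) = N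
    have r1 : (r : ℂ) ≠ 0 := by exact_mod_cast r0.ne'
    have a1 := zpow_ne_zero d.i₁ w0
    have a2 := zpow_ne_zero d.i₂ t0
    rw [e]
    generalize wz η c = w at *
    generalize T * gB (4 - i) η = t at *
    generalize c * gA η = c' at *
    simp only
    field_simp
  have p : 0 < C / r * (‖(grd d.n a).1‖ ^ 2 + ‖(grd d.n a).2.1‖ ^ 2 + ‖(grd d.n a).2.2‖ ^ 2) :=
    mul_pos (div_pos C0 r0) g
  rw [k]
  exact ⟨mul_ne_zero (by exact_mod_cast p.ne') (S1_ne (mem_S1.2 u)), ph_pos_mul p u⟩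

theorem jet_eta (h : d.OK) (hη : η ∈ CC) (hc : c ∈ S1) (hT : T ∈ S1) :
    (d.j (PiE i (η, c, T))).1.2.1 ^ 3 = η * (d.j (PiE i (η, c, T))).1.2.2 ^ d.n := by
  obtain ⟨h0, h1⟩ := jet_cc hη
  obtain ⟨r, C, -, -, e⟩ := jet_form (i := i) (d := d) hη hc T
  have k := jet_cone (i := i) h hη hc hT
  have q : η * (d.j (PiE i (η, c, T))).1.1 ^ 2 + (1 + η) * (d.j (PiE i (η, c, T))).1.2.1 ^ 3 = 0 := by
    rw [e]
    generalize r * (wz η c ^ d.i₁ * (T * gB (4 - i) η) ^ d.i₂) * (c * gA η) = l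
    simp only
    field_simp
    ring
  linear_combination q - η * k

theorem jet_open : IsOpen CC := (toFinite _).isClosed.isOpen_compl

theorem jet_pi_at (hη : η ∈ CC) (hc : c ∈ S1) (T : ℂ) : ContDiffAt ℝ ∞ (PiE i) (η, c, T) := by
  obtain ⟨h0, h1⟩ := jet_cc hη
  have f : ContDiffAt ℝ ∞ (fun u : C3 => u.1) (η, c, T) := contDiffAt_fst
  have a : ContDiffAt ℝ ∞ (fun u : C3 => u.2.1 * gA u.1) (η, c, T) :=
    contDiffAt_snd.fst.mul (ContDiffAt.comp (g := gA) (f := fun u : C3 => u.1) (η, c, T)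
      (gA_facts.1.contDiffAt (jet_open.mem_nhds hη)) f)
  have b : ContDiffAt ℝ ∞ (fun u : C3 => u.2.2 * gB (4 - i) u.1) (η, c, T) :=
    contDiffAt_snd.snd.mul (ContDiffAt.comp (g := gB (4 - i)) (f := fun u : C3 => u.1) (η, c, T)
      ((gB_facts _).1.contDiffAt (jet_open.mem_nhds hη)) f)
  have q : ContDiffAt ℝ ∞ (fun u : C3 => (1 + u.1)⁻¹) (η, c, T) := (contDiffAt_const.add f).inv h1
  have o : IsOpen {a : C3 | ‖a.1‖ ^ 4 + ‖a.2.1‖ ^ 6 ≠ 0} :=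
    isOpen_ne_fun (by fun_prop) continuous_const
  refine ContDiffAt.prodMk (ContDiffAt.comp (g := toY 1) (f := fun u : C3 =>
    (-(u.2.1 * gA u.1) ^ 3 * u.1 / (1 + u.1), -(u.2.1 * gA u.1) ^ 2 * u.1 / (1 + u.1),
      -(u.2.1 * gA u.1) ^ 6 * u.1 ^ 2 / (1 + u.1) ^ 3)) (η, c, T)
    ((toY_contDiffOn 1).contDiffAt (o.mem_nhds
      (jet_rho hη (S1_ne (mem_S1.2 (jet_gA hη hc)))))) ?_) b
  simp only [div_eq_mul_inv, ← inv_pow]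
  exact (((a.pow 3).neg.mul f).mul q).prodMk ((((a.pow 2).neg.mul f).mul q).prodMk
    (((a.pow 6).neg.mul (f.pow 2)).mul (q.pow 3)))

theorem jet_mem {u : ℂ × ℝ × ℝ} (hu : Complex.exp u.1 ≠ -1) :
    Complex.exp u.1 ∈ CC ∧ ex u.2.1 ∈ S1 ∧ ex u.2.2 ∈ S1 :=
  ⟨fun k => k.elim (Complex.exp_ne_zero _) hu, mem_S1.2 (norm_ex _), mem_S1.2 (norm_ex _)⟩

theorem jet_sm (h : d.OK) {u : ℂ × ℝ × ℝ} (hu : Complex.exp u.1 ≠ -1) :
    ContDiffAt ℝ ∞ (d.jt i) u := by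
  obtain ⟨h1, h2, h3⟩ := jet_mem hu
  have e : ContDiffAt ℝ ∞ (fun u : ℂ × ℝ × ℝ => (Complex.exp u.1, ex u.2.1, ex u.2.2)) u :=
    (contDiffAt_fst.cexp).prodMk ((contDiff_ex.contDiffAt.comp u contDiffAt_snd.fst).prodMk
      (contDiff_ex.contDiffAt.comp u contDiffAt_snd.snd))
  have y := jet_yo (i := i) h1 h2 h3
  have J := (Jm_at (1 / d.n) d.i₁ d.i₂ d.e₁ d.e₂ d.k d.l y.2.2 (S1_ne y.2.1)).comp u
    ((jet_pi_at h1 h2 _).comp u e)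
  refine ContDiffAt.prodMk (((toB_contDiffOn h.1).contDiffAt (isOpen_ne.mem_nhds ?_)).comp u
    J.fst) J.snd
  intro k
  have x := (jet_ne (i := i) (d := d) h1 h2 h3).1
  simp only [JD.j] at x
  rw [show (Jm (1 / d.n) d.i₁ d.i₂ d.e₁ d.e₂ d.k d.l
    (PiE i (Complex.exp u.1, ex u.2.1, ex u.2.2))).1 = 0 from k] at x
  exact x (by simp [toB, scl])

theorem jet_hor (h : d.OK) {u : ℂ × ℝ × ℝ} (hu : Complex.exp u.1 ≠ -1) (v : ℂ × ℝ × ℝ) :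
    (om d.n (d.jt i u).1 (fderiv ℝ (d.jt i) u v).1).1 = hz d.n (d.jt i u).1 * v.1 := by
  obtain ⟨h1, h2, h3⟩ := jet_mem hu
  have F : HasFDerivAt (fun w => (d.jt i w).1) _ u :=
    ((jet_sm (i := i) h hu).differentiableAt (by simp)).hasFDerivAt.fst
  have ev : ∀ᶠ w : ℂ × ℝ × ℝ in 𝓝 u, Complex.exp w.1 ≠ -1 :=
    (isOpen_ne_fun (by fun_prop) continuous_const).mem_nhds hu
  obtain ⟨x, y, z⟩ : (d.jt i u).1.1 ≠ 0 ∧ (d.jt i u).1.2.1 ≠ 0 ∧ (d.jt i u).1.2.2 ≠ 0 :=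
    jet_ne h1 h2 h3
  have p : dotL (grd d.n (d.jt i u).1) (fderiv ℝ (d.jt i) u v).1 = 0 := by
    have k := ((lev_pol d.n _).comp u F).unique ((hasFDerivAt_const (0 : ℂ) u).congr_of_eventuallyEq
      (ev.mono fun w hw => jet_cone h (jet_mem hw).1 (jet_mem hw).2.1 (jet_mem hw).2.2))
    exact congrArg (fun L => L v) k
  have q : fderiv ℝ (fun b : C3 => b.2.1 ^ 3 / b.2.2 ^ d.n) (d.jt i u).1
      (fderiv ℝ (d.jt i) u v).1 = Complex.exp u.1 * v.1 := by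
    have D : DifferentiableAt ℝ (fun b : C3 => b.2.1 ^ 3 / b.2.2 ^ d.n) (d.jt i u).1 := by
      simp only [div_eq_mul_inv]
      exact (by fun_prop : DifferentiableAt ℝ (fun b : C3 => b.2.1 ^ 3) _).mul
        ((by fun_prop : DifferentiableAt ℝ (fun b : C3 => b.2.2 ^ d.n) _).inv (pow_ne_zero _ z))
    have E : HasFDerivAt (fun w : ℂ × ℝ × ℝ => Complex.exp w.1) _ u :=
      (hasFDerivAt_fst (𝕜 := ℝ)).cexp
    have k := (D.hasFDerivAt.comp u F).unique (E.congr_of_eventuallyEq (ev.mono fun w hw => by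
      obtain ⟨k1, k2, k3⟩ := jet_mem hw
      exact (div_eq_iff (pow_ne_zero _ (jet_ne k1 k2 k3).2.2)).2 (jet_eta h k1 k2 k3)))
    exact congrArg (fun L => L v) k
  have k := om_eta (a := (d.jt i u).1) h.1 (jet_cone h h1 h2 h3) z p
  have t : (d.jt i u).1.2.1 ^ 3 = Complex.exp u.1 * (d.jt i u).1.2.2 ^ d.n := jet_eta h h1 h2 h3
  rw [q, jet_nsq] at k
  refine mul_left_cancel₀ (mul_ne_zero x (pow_ne_zero 2 y)) (k.trans ?_)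
  rw [hz]
  generalize (d.jt i u).1 = a at *
  field_simp
  linear_combination (a.2.2 * v.1 * ((‖(grd d.n a).1‖ ^ 2 + ‖(grd d.n a).2.1‖ ^ 2 +
    ‖(grd d.n a).2.2‖ ^ 2 : ℝ) : ℂ)) * t

theorem jet_zpow (k : ℤ) (t : ℝ) : ex t ^ k = ex (k * t) := by
  rw [ex, ex, ← Complex.exp_int_mul]
  congr 1
  push_cast
  ring

/-- The torus acts on the fibres through the circle action. -/
theorem jet_rot {a σ : ℂ} (b : ℂ) (ha : ‖a‖ = 1)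
    (hσ : ‖σ‖ = 1) (e1 : σ ^ d.n = (a ^ 6) ^ d.i₁ * b ^ d.i₂ * a)
    (e2 : σ ^ 6 = (a ^ 6) ^ d.e₁ * b ^ d.e₂) : d.j (PiE i (η, c * a, T * b)) =
      (hY d.n σ (d.j (PiE i (η, c, T))).1, (d.j (PiE i (η, c, T))).2 * ((a ^ 6) ^ d.k * b ^ d.l)) := by
  have s : sec η (c * a * gA η) = (a ^ 3, a ^ 2, a ^ 6) * sec η (c * gA η) := by
    rw [sec, sec, ← toY_mul 1 (by simp [ha]) (by simp [ha])]
    congr 1
    refine Prod.ext ?_ (Prod.ext ?_ ?_) <;> simp only [Prod.fst_mul, Prod.snd_mul] <;> ring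
  have w : ph (a ^ 6 * (sec η (c * gA η)).2.2) = a ^ 6 * ph (sec η (c * gA η)).2.2 := by
    simp [ph, ha, mul_div_assoc]
  have J : Jm (1 / d.n) d.i₁ d.i₂ d.e₁ d.e₂ d.k d.l (PiE i (η, c * a, T * b)) =
      (((σ ^ d.n) ^ 3, (σ ^ d.n) ^ 2, σ ^ 6) *
        (Jm (1 / d.n) d.i₁ d.i₂ d.e₁ d.e₂ d.k d.l (PiE i (η, c, T))).1,
      (Jm (1 / d.n) d.i₁ d.i₂ d.e₁ d.e₂ d.k d.l (PiE i (η, c, T))).2 *
        ((a ^ 6) ^ d.k * b ^ d.l)) := by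
    simp only [Jm, PiE, s, Prod.fst_mul, Prod.snd_mul, w, e1, e2, norm_mul, norm_pow, ha, one_pow,
      one_mul, mul_right_comm T b, mul_zpow (a ^ 6), mul_zpow _ b]
    refine Prod.ext (Prod.ext ?_ (Prod.ext ?_ ?_)) ?_ <;>
      simp only [Prod.fst_mul, Prod.snd_mul] <;> ring
  simp only [JD.j, J]
  rw [toB_mul _ (by simp [hσ]) (by simp [hσ]) (by simp [hσ])]
  simp only [hY, Prod.mul_def, ← pow_mul, mul_comm d.n]

theorem jet_ver (h : d.OK) {u : ℂ × ℝ × ℝ} (hu : Complex.exp u.1 ≠ -1) (ψ τ : ℝ) :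
    (om d.n (d.jt i u).1 (fderiv ℝ (d.jt i) u (0, ψ, τ)).1).2 =
      2 * Real.pi * nE d.n (d.jt i u).1 * (d.e₁ * ψ + d.e₂ * τ / 6) ∧
    (fderiv ℝ (d.jt i) u (0, ψ, τ)).2 =
      2 * Real.pi * .I * (d.jt i u).2 * (6 * d.k * ψ + d.l * τ : ℝ) := by
  obtain ⟨h1, h2, h3⟩ := jet_mem hu
  have n1 : (6 * d.i₁ + 1 : ℝ) = d.n * d.e₁ := by exact_mod_cast h.2.1
  have n2 : (6 * d.i₂ : ℝ) = d.n * d.e₂ := by exact_mod_cast h.2.2.1
  have np : ∀ (k : ℕ) (t : ℝ), ex t ^ k = ex (k * t) := fun k t => by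
    rw [← zpow_natCast, jet_zpow, Int.cast_natCast]
  have e : ∀ r : ℝ, d.jt i (u + r • (0, ψ, τ)) =
      (hY d.n (ex (r * (d.e₁ * ψ + d.e₂ * τ / 6))) (d.jt i u).1,
        (d.jt i u).2 * ex (r * (6 * d.k * ψ + d.l * τ))) := fun r => by
    have k := jet_rot (i := i) (d := d) (η := Complex.exp u.1) (c := ex u.2.1) (T := ex u.2.2)
      (ex (r * τ)) (norm_ex (r * ψ))
      (norm_ex (r * (d.e₁ * ψ + d.e₂ * τ / 6)))
      (by simp only [np, jet_zpow, ← ex_add]; congr 1; push_cast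
          linear_combination -(r * ψ) * n1 - (r * τ / 6) * n2)
      (by simp only [np, jet_zpow, ← ex_add]; congr 1; push_cast; ring)
    simp only [JD.jt, Prod.fst_add, Prod.snd_add, Prod.smul_mk, smul_eq_mul, smul_zero, add_zero,
      ex_add, k]
    simp only [np, jet_zpow, ← ex_add]
    congr 3
    push_cast
    ring
  have L : HasDerivAt (fun r : ℝ => u + r • ((0, ψ, τ) : ℂ × ℝ × ℝ)) (0, ψ, τ) 0 := by
    simpa using ((hasDerivAt_id (0 : ℝ)).smul_const ((0, ψ, τ) : ℂ × ℝ × ℝ)).const_add u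
  have F := (((jet_sm (i := i) h hu).differentiableAt (by simp)).hasFDerivAt.comp_hasDerivAt_of_eq
    0 L (by simp))
  have X : ∀ m : ℝ, HasDerivAt (fun r : ℝ => ex (r * m)) (2 * Real.pi * .I * m) 0 := fun m => by
    have k := (hasDerivAt_ex (0 * m)).scomp (0 : ℝ) ((hasDerivAt_id (0 : ℝ)).mul_const m)
    have z : ex (0 * m) = 1 := by simp [ex]
    rw [z] at k
    exact k.congr_deriv (by simp [mul_comm])
  have P : ∀ (m : ℝ) (k : ℕ) (x : ℂ), HasDerivAt (fun r : ℝ => ex (r * m) ^ k * x)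
      (2 * Real.pi * .I * m * (k * x)) 0 := fun m k x => by
    simp only [np, mul_left_comm (k : ℝ)]
    exact ((X (k * m)).mul_const x).congr_deriv (by push_cast; ring)
  have G := F.unique ((((P (d.e₁ * ψ + d.e₂ * τ / 6) (3 * d.n) (d.jt i u).1.1).prodMk
    ((P _ (2 * d.n) (d.jt i u).1.2.1).prodMk (P _ 6 (d.jt i u).1.2.2))).prodMk
      ((X (6 * d.k * ψ + d.l * τ)).const_mul (d.jt i u).2)).congr_of_eventuallyEq
        (.of_forall e))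
  have g1 : (fderiv ℝ (d.jt i) u (0, ψ, τ)).1 =
      (2 * Real.pi * .I * (d.e₁ * ψ + d.e₂ * τ / 6 : ℝ) : ℂ) • eul d.n (d.jt i u).1 := by
    rw [G]
    simp only [eul, Prod.smul_mk, smul_eq_mul, Nat.cast_mul, Nat.cast_ofNat]
  refine ⟨?_, by rw [G]; ring⟩
  rw [g1, om_eul, jet_nsq, nE]
  generalize (d.e₁ * ψ + d.e₂ * τ / 6 : ℝ) = m
  generalize (‖(eul d.n (d.jt i u).1).1‖ ^ 2 + ‖(eul d.n (d.jt i u).1).2.1‖ ^ 2 +
    ‖(eul d.n (d.jt i u).1).2.2‖ ^ 2 : ℝ) = N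
  simp
  ring

end Pool.Agent.Lib.MP_b2e238_gt
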