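import Pool.Agent.Lib.MP_b2e238_gt.B.J

/-! Algebra of the coframe. -/

open scoped ContDiff Topology
open Set Metric

noncomputable section

namespace Pool.Agent.Lib.MP_b2e238_gt

variable {n n' : ℕ} {a v : C3}

theorem dotL_apply (v w : C3) : dotL v w = v.1 * w.1 + v.2.1 * w.2.1 + v.2.2 * w.2.2 := by
  simp [dotL, add_assoc]

theorem om_apply (n : ℕ) (a v : C3) : om n a v =
    (dotL (crs (star (grd n a)) (eul n a)) v, (dotL (star (eul n a)) v).im) := rfl

theorem om_mu (g : ℂ) (x : E3) : mu g x = (g * x.1, x.2) := rfl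

theorem contDiff_om (n : ℕ) : ContDiff ℝ ∞ (om n) := by
  refine contDiff_clm_apply_iff.2 fun v => ?_
  have s {f : C3 → ℂ} (h : ContDiff ℝ ∞ f) : ContDiff ℝ ∞ fun a => star (f a) :=
    Complex.conjCLE.contDiff.comp h
  have g1 := s (f := fun a => (grd n a).1) (by unfold grd; fun_prop)
  have g2 := s (f := fun a => (grd n a).2.1) (by unfold grd; fun_prop)
  have g3 := s (f := fun a => (grd n a).2.2) (by unfold grd; fun_prop)
  have e1 : ContDiff ℝ ∞ fun a => (eul n a).1 := by unfold eul; fun_prop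
  have e2 : ContDiff ℝ ∞ fun a => (eul n a).2.1 := by unfold eul; fun_prop
  have e3 : ContDiff ℝ ∞ fun a => (eul n a).2.2 := by unfold eul; fun_prop
  simp only [om_apply, dotL_apply, crs, Prod.fst_star, Prod.snd_star]
  exact (((((g2.mul e3).sub (g3.mul e2)).mul contDiff_const).add
    (((g3.mul e1).sub (g1.mul e3)).mul contDiff_const)).add
    (((g1.mul e2).sub (g2.mul e1)).mul contDiff_const)).prodMk (Complex.imCLM.contDiff.comp
      ((((s e1).mul contDiff_const).add ((s e2).mul contDiff_const)).add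
        ((s e3).mul contDiff_const)))

theorem dot_grd_eul (n : ℕ) (a : C3) :
    dotL (grd n a) (eul n a) = 6 * n * (a.1 ^ 2 + a.2.1 ^ 3 + a.2.2 ^ n) := by
  simp only [dotL_apply, grd, eul]
  cases n with
  | zero => simp
  | succ m => rw [Nat.add_sub_cancel]; ring

theorem grd_ne (hn : n ≠ 0) (h : a ≠ 0) : grd n a ≠ 0 := fun e => h (by
  simp only [grd, Prod.mk_eq_zero, mul_eq_zero, OfNat.ofNat_ne_zero, false_or, Nat.cast_eq_zero,
    hn] at e
  exact Prod.ext e.1 (Prod.ext (pow_eq_zero_iff two_ne_zero |>.1 e.2.1) (eq_zero_of_pow_eq_zero e.2.2)))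

theorem eul_ne (hn : n ≠ 0) (h : a ≠ 0) : eul n a ≠ 0 := fun e => h (by
  simp only [eul, Prod.mk_eq_zero, mul_eq_zero, OfNat.ofNat_ne_zero, false_or, Nat.cast_eq_zero,
    hn] at e
  exact Prod.ext e.1 (Prod.ext e.2.1 e.2.2))

/-- `dotL (star g) g` is the positive number `|g|²`. -/
theorem dot_star_pos {g : C3} (h : g ≠ 0) : ∃ r : ℝ, 0 < r ∧ dotL (star g) g = r := by
  refine ⟨Complex.normSq g.1 + Complex.normSq g.2.1 + Complex.normSq g.2.2, ?_, ?_⟩
  · have h1 := Complex.normSq_nonneg g.1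
    have h2 := Complex.normSq_nonneg g.2.1
    have h3 := Complex.normSq_nonneg g.2.2
    by_contra c
    exact h (Prod.ext (Complex.normSq_eq_zero.1 (by linarith)) (Prod.ext
      (Complex.normSq_eq_zero.1 (by linarith)) (Complex.normSq_eq_zero.1 (by linarith))))
  · simp [dotL_apply, Complex.normSq_eq_conj_mul_self]

theorem om_eul (n : ℕ) (a : C3) (c : ℂ) :
    om n a (c • eul n a) = (0, (c * dotL (star (eul n a)) (eul n a)).im) := by
  rw [om_apply]
  congr 2
  · simp only [dotL_apply, crs, Prod.smul_fst, Prod.smul_snd, smul_eq_mul]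
    ring
  · simp only [dotL_apply, Prod.smul_fst, Prod.smul_snd, smul_eq_mul]
    ring

theorem om_vec (b g E v : C3) (hv : dotL g v = 0) (hE : dotL g E = 0) :
    dotL b g • crs E v = dotL (crs b E) v • g := by
  simp only [dotL_apply] at hv hE
  refine Prod.ext ?_ (Prod.ext ?_ ?_) <;>
    simp only [dotL_apply, crs, Prod.smul_fst, Prod.smul_snd, smul_eq_mul]
  · linear_combination -(b.2.1 * E.2.2 - b.2.2 * E.2.1) * hv + (b.2.1 * v.2.2 - b.2.2 * v.2.1) * hE
  · linear_combination -(b.2.2 * E.1 - b.1 * E.2.2) * hv + (b.2.2 * v.1 - b.1 * v.2.2) * hE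
  · linear_combination -(b.1 * E.2.1 - b.2.1 * E.1) * hv + (b.1 * v.2.1 - b.2.1 * v.1) * hE

/-- `E × v` is parallel to the gradient. -/
theorem crs_om (h : a.1 ^ 2 + a.2.1 ^ 3 + a.2.2 ^ n = 0) (hv : dotL (grd n a) v = 0) :
    dotL (star (grd n a)) (grd n a) • crs (eul n a) v = (om n a v).1 • grd n a :=
  om_vec _ _ _ _ hv (by rw [dot_grd_eul, h, mul_zero])

theorem om_par (b E v : C3) (h : crs E v = 0) : dotL b E • v = dotL b v • E := by
  simp only [crs, Prod.mk_eq_zero] at h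
  obtain ⟨h1, h2, h3⟩ := h
  refine Prod.ext ?_ (Prod.ext ?_ ?_) <;>
    simp only [dotL_apply, Prod.smul_fst, Prod.smul_snd, smul_eq_mul]
  · linear_combination -b.2.1 * h3 + b.2.2 * h2
  · linear_combination -b.2.2 * h1 + b.1 * h3
  · linear_combination -b.1 * h2 + b.2.1 * h1

theorem om_ker (hn : n ≠ 0) (h : a.1 ^ 2 + a.2.1 ^ 3 + a.2.2 ^ n = 0) (h0 : a ≠ 0)
    (hv : dotL (grd n a) v = 0) (e : om n a v = 0) : ∃ c : ℝ, v = c • eul n a := by
  obtain ⟨r, r0, hr⟩ := dot_star_pos (grd_ne hn h0)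
  obtain ⟨s, s0, hs⟩ := dot_star_pos (eul_ne hn h0)
  have k := crs_om h hv
  rw [e, hr, Prod.fst_zero, zero_smul, smul_eq_zero] at k
  have l := om_par (star (eul n a)) _ _ (k.resolve_left (by exact_mod_cast r0.ne'))
  have m : dotL (star (eul n a)) v = ((dotL (star (eul n a)) v).re : ℝ) :=
    Complex.ext rfl (congrArg Prod.snd e)
  rw [hs, m, Complex.coe_smul, Complex.coe_smul] at l
  exact ⟨s⁻¹ * (dotL (star (eul n a)) v).re, by
    rw [mul_smul, ← l, inv_smul_smul₀ s0.ne']⟩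

theorem om_fderiv (hn : n ≠ 0) (hz : a.2.2 ≠ 0) (v : C3) :
    a.2.2 ^ (n + 1) * fderiv ℝ (fun b : C3 => b.2.1 ^ 3 / b.2.2 ^ n) a v =
      3 * a.2.1 ^ 2 * a.2.2 * v.2.1 - n * a.2.1 ^ 3 * v.2.2 := by
  have h1 : HasFDerivAt (fun b : C3 => b.2.1) _ a := (hasFDerivAt_snd (𝕜 := ℝ)).fst
  have h2 : HasFDerivAt (fun b : C3 => b.2.2) _ a := (hasFDerivAt_snd (𝕜 := ℝ)).snd
  have k := (((hasDerivAt_pow 3 a.2.1).comp_hasFDerivAt a h1).mul
    (((hasDerivAt_pow n a.2.2).inv (pow_ne_zero n hz)).comp_hasFDerivAt a h2)).fderiv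
  have e : (fun b : C3 => b.2.1 ^ 3 / b.2.2 ^ n) = ((fun x : ℂ => x ^ 3) ∘ fun b : C3 => b.2.1) *
      ((fun x : ℂ => x ^ n)⁻¹ ∘ fun b : C3 => b.2.2) := funext fun b => div_eq_mul_inv _ _
  rw [e, k]
  obtain ⟨m, rfl⟩ := Nat.exists_eq_succ_of_ne_zero hn
  simp
  field_simp
  ring

/-- Comparison with the base coordinate `η = y³ / zⁿ`. -/
theorem om_eta (hn : n ≠ 0) (h : a.1 ^ 2 + a.2.1 ^ 3 + a.2.2 ^ n = 0) (hz : a.2.2 ≠ 0)
    (hv : dotL (grd n a) v = 0) : a.1 * a.2.1 ^ 2 * (om n a v).1 =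
      -dotL (star (grd n a)) (grd n a) * a.2.2 ^ (n + 1) *
        fderiv ℝ (fun b : C3 => b.2.1 ^ 3 / b.2.2 ^ n) a v := by
  have k := congrArg Prod.fst (crs_om h hv)
  rw [mul_assoc (-_), om_fderiv hn hz]
  generalize dotL (star (grd n a)) (grd n a) = r at k ⊢
  generalize (om n a v).1 = w at k ⊢
  simp only [crs, eul, grd, Prod.smul_fst, smul_eq_mul] at k
  linear_combination -(a.2.1 ^ 2 / 2) * k

theorem om_star (n : ℕ) (a v : C3) :
    om n (star a) (star v) = (star (om n a v).1, -(om n a v).2) := by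
  have d (b c : C3) : dotL (star b) (star c) = star (dotL b c) := by simp [dotL_apply]
  have c (b c : C3) : crs (star b) (star c) = star (crs b c) := by
    refine Prod.ext ?_ (Prod.ext ?_ ?_) <;> simp [crs]
  have g : grd n (star a) = star (grd n a) := by
    refine Prod.ext ?_ (Prod.ext ?_ ?_) <;> simp [grd]
  have e : eul n (star a) = star (eul n a) := by
    refine Prod.ext ?_ (Prod.ext ?_ ?_) <;> simp [eul]
  rw [om_apply, om_apply, g, e, c, d, d]
  rfl

theorem om_hY (hn : n ≠ 0) {τ : ℂ} (h : ‖τ‖ = 1) (a v : C3) :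
    om n (hY n τ a) (hY n τ v) = mu (τ ^ (6 - n : ℤ)) (om n a v) := by
  have t0 : τ ≠ 0 := fun c => by simp [c] at h
  have s : star τ = τ⁻¹ := (Complex.inv_eq_conj h).symm
  obtain ⟨m, rfl⟩ := Nat.exists_eq_succ_of_ne_zero hn
  rw [om_mu, om_apply, om_apply, zpow_sub₀ t0, zpow_natCast]
  congr 2
  · simp only [dotL_apply, crs, grd, eul, hY, Prod.fst_star, Prod.snd_star, star_mul', star_pow,
      mul_pow, s, Nat.succ_eq_add_one, Nat.add_sub_cancel, zpow_ofNat, inv_pow]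
    field_simp
    ring
  · simp only [dotL_apply, eul, hY, Prod.fst_star, Prod.snd_star, star_mul', star_pow, s,
      inv_pow]
    field_simp

end Pool.Agent.Lib.MP_b2e238_gt
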